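import Pool.Agent.H422R3.C6Upper

set_option autoImplicit false

namespace Pool.Agent.H422R3.C6

open Finset

section
variable {F : Type} [Field F]

/-- incidence of the point `(a₁, a₂, a₃)` and the line `[b₁, b₂, b₃]` -/
def Inc (a b : F × F × F) : Prop := a.2.1 + b.2.1 = a.1 * b.1 ∧ a.2.2 + b.2.2 = a.1 * b.2.1

/-- a point is determined by a line and its first coordinate -/
lemma inc_point {a a' b : F × F × F} (h : Inc a b) (h' : Inc a' b) (h1 : a.1 = a'.1) : a = a' := by
  obtain ⟨a1, a2, a3⟩ := a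
  obtain ⟨c1, c2, c3⟩ := a'
  obtain ⟨b1, b2, b3⟩ := b
  simp only [Inc] at h h' h1
  subst h1
  have e2 : a2 = c2 := by linear_combination h.1 - h'.1
  have e3 : a3 = c3 := by linear_combination h.2 - h'.2
  rw [e2, e3]

/-- a line is determined by a point and its first coordinate -/
lemma inc_line {a b b' : F × F × F} (h : Inc a b) (h' : Inc a b') (h1 : b.1 = b'.1) : b = b' := by
  obtain ⟨a1, a2, a3⟩ := a
  obtain ⟨b1, b2, b3⟩ := b
  obtain ⟨c1, c2, c3⟩ := b'
  simp only [Inc] at h h' h1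
  subst h1
  have e2 : b2 = c2 := by linear_combination h.1 - h'.1
  subst e2
  have e3 : b3 = c3 := by linear_combination h.2 - h'.2
  rw [e3]

/-- two distinct lines have at most one common point -/
lemma inc_c4 {x x' l l' : F × F × F} (h1 : Inc x l) (h2 : Inc x l') (h3 : Inc x' l) (h4 : Inc x' l')
    (hl : l ≠ l') : x = x' := by
  by_contra hx
  have hx1 : x.1 ≠ x'.1 := fun h => hx (inc_point h1 h3 h)
  have hl1 : l.1 ≠ l'.1 := fun h => hl (inc_line h1 h2 h)
  have e : (x.1 - x'.1) * (l.1 - l'.1) = 0 := by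
    linear_combination (-h1.1 + h2.1 + h3.1 - h4.1)
  rcases mul_eq_zero.1 e with h | h
  · exact hx1 (sub_eq_zero.1 h)
  · exact hl1 (sub_eq_zero.1 h)

/-- no triangles -/
lemma inc_c6 {x1 x2 x3 l1 l2 l3 : F × F × F} (h11 : Inc x1 l1) (h12 : Inc x1 l2) (h22 : Inc x2 l2)
    (h23 : Inc x2 l3) (h33 : Inc x3 l3) (h31 : Inc x3 l1) (hx12 : x1 ≠ x2) (hx23 : x2 ≠ x3)
    (hx13 : x1 ≠ x3) (hl12 : l1 ≠ l2) (hl23 : l2 ≠ l3) : False := by
  have hs12 : x1.1 ≠ x2.1 := fun h => hx12 (inc_point h12 h22 h)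
  have hs23 : x2.1 ≠ x3.1 := fun h => hx23 (inc_point h23 h33 h)
  have hm12 : l1.1 ≠ l2.1 := fun h => hl12 (inc_line h11 h12 h)
  have hm23 : l2.1 ≠ l3.1 := fun h => hl23 (inc_line h22 h23 h)
  obtain ⟨s1, a1, c1⟩ := x1
  obtain ⟨s2, a2, c2⟩ := x2
  obtain ⟨s3, a3, c3⟩ := x3
  obtain ⟨m1, b1, d1⟩ := l1
  obtain ⟨m2, b2, d2⟩ := l2
  obtain ⟨m3, b3, d3⟩ := l3
  simp only [Inc] at *
  -- eliminate
  have A1 : a1 = s1 * m1 - b1 := by linear_combination h11.1
  have A1' : a1 = s1 * m2 - b2 := by linear_combination h12.1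
  have A2 : a2 = s2 * m2 - b2 := by linear_combination h22.1
  have A2' : a2 = s2 * m3 - b3 := by linear_combination h23.1
  have A3 : a3 = s3 * m3 - b3 := by linear_combination h33.1
  have A3' : a3 = s3 * m1 - b1 := by linear_combination h31.1
  have C1 : s1 * b1 - d1 = s1 * b2 - d2 := by linear_combination h12.2 - h11.2
  have C2 : s2 * b2 - d2 = s2 * b3 - d3 := by linear_combination h23.2 - h22.2
  have C3 : s3 * b3 - d3 = s3 * b1 - d1 := by linear_combination h31.2 - h33.2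
  have B12 : b1 - b2 = s1 * (m1 - m2) := by linear_combination A1 - A1'
  have B23 : b2 - b3 = s2 * (m2 - m3) := by linear_combination A2 - A2'
  have B31 : b3 - b1 = s3 * (m3 - m1) := by linear_combination A3 - A3'
  have R1 : s1 * (m1 - m2) + s2 * (m2 - m3) + s3 * (m3 - m1) = 0 := by
    linear_combination -B12 - B23 - B31
  have R2 : s1 ^ 2 * (m1 - m2) + s2 ^ 2 * (m2 - m3) + s3 ^ 2 * (m3 - m1) = 0 := by
    linear_combination C1 + C2 + C3 - s1 * B12 - s2 * B23 - s3 * B31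
  have R3 : (m1 - m2) + (m2 - m3) + (m3 - m1) = 0 := by ring
  -- Vandermonde in `s1, s2, s3`
  have V : (m1 - m2) * ((s1 - s2) * (s1 - s3)) = 0 := by
    linear_combination R2 - (s2 + s3) * R1 + s2 * s3 * R3
  have V2 : (m2 - m3) * ((s2 - s1) * (s2 - s3)) = 0 := by
    linear_combination R2 - (s1 + s3) * R1 + s1 * s3 * R3
  rcases mul_eq_zero.1 V2 with h | h
  · exact hm23 (sub_eq_zero.1 h)
  · rcases mul_eq_zero.1 h with h | h
    · exact hs12 (sub_eq_zero.1 h).symm
    · exact hs23 (sub_eq_zero.1 h)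

/-- the graph: lines on the left, two copies of each point on the right -/
def QG (F : Type) [Field F] : SimpleGraph ((F × F × F) ⊕ ((F × F × F) × Bool)) where
  Adj a b := match a, b with
    | Sum.inl l, Sum.inr p => Inc p.1 l
    | Sum.inr p, Sum.inl l => Inc p.1 l
    | _, _ => False
  symm := ⟨by
    rintro (l | p) (l' | p') h
    · exact h
    · exact h
    · exact h
    · exact h⟩
  loopless := ⟨by
    rintro (l | p) h
    · exact h
    · exact h⟩

lemma QG_lr (l : F × F × F) (p : (F × F × F) × Bool) :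
    (QG F).Adj (Sum.inl l) (Sum.inr p) ↔ Inc p.1 l := Iff.rfl

lemma QG_rl (l : F × F × F) (p : (F × F × F) × Bool) :
    (QG F).Adj (Sum.inr p) (Sum.inl l) ↔ Inc p.1 l := Iff.rfl

lemma QG_ll (l l' : F × F × F) : ¬ (QG F).Adj (Sum.inl l) (Sum.inl l') := fun h => h

lemma QG_rr (p p' : (F × F × F) × Bool) : ¬ (QG F).Adj (Sum.inr p) (Sum.inr p') := fun h => h

lemma hexa {l1 l2 l3 : F × F × F} {p1 p2 p3 : (F × F × F) × Bool}
    (h11 : Inc p1.1 l1) (h12 : Inc p1.1 l2) (h22 : Inc p2.1 l2)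
    (h23 : Inc p2.1 l3) (h33 : Inc p3.1 l3) (h31 : Inc p3.1 l1) (hx12 : p1 ≠ p2) (hx23 : p2 ≠ p3)
    (hx13 : p1 ≠ p3) (hl12 : l1 ≠ l2) (hl23 : l2 ≠ l3) (hl13 : l1 ≠ l3) : False := by
  have key : p1.1 = p2.1 → p2.1 = p3.1 → False := by
    intro e1 e2
    obtain ⟨x1, b1⟩ := p1
    obtain ⟨x2, b2⟩ := p2
    obtain ⟨x3, b3⟩ := p3
    simp only at e1 e2
    subst e1 e2
    simp only [ne_eq, Prod.mk.injEq, true_and] at hx12 hx23 hx13
    cases b1 <;> cases b2 <;> cases b3 <;> simp_all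
  by_cases e12 : p1.1 = p2.1
  · have : p1.1 = p3.1 := by
      rw [← e12] at h23
      exact inc_c4 h11 h23 h31 h33 hl13
    exact key e12 (e12.symm.trans this)
  · by_cases e23 : p2.1 = p3.1
    · have : p1.1 = p2.1 := by
        rw [← e23] at h31
        exact inc_c4 h11 h12 h31 h22 hl12
      exact e12 this
    · by_cases e13 : p1.1 = p3.1
      · have : p2.1 = p1.1 := by
          rw [← e13] at h33
          exact inc_c4 h22 h23 h12 h33 hl23
        exact e12 this.symm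
      · exact inc_c6 h11 h12 h22 h23 h33 h31 e12 e23 e13 hl12 hl23

theorem QG_noC6 : NoC6 (QG F) := by
  have main : ∀ (l1 : F × F × F) (b c d e f : (F × F × F) ⊕ ((F × F × F) × Bool)),
      [Sum.inl l1, b, c, d, e, f].Nodup → (QG F).Adj (Sum.inl l1) b → (QG F).Adj b c →
      (QG F).Adj c d → (QG F).Adj d e → (QG F).Adj e f → (QG F).Adj f (Sum.inl l1) → False := by
    intro l1 b c d e f hn h1 h2 h3 h4 h5 h6
    rcases b with b | p1
    · exact QG_ll _ _ h1
    rcases c with l2 | c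
    swap
    · exact QG_rr _ _ h2
    rcases d with d | p2
    · exact QG_ll _ _ h3
    rcases e with l3 | e
    swap
    · exact QG_rr _ _ h4
    rcases f with f | p3
    · exact QG_ll _ _ h5
    rw [QG_lr] at h1 h3 h5
    rw [QG_rl] at h2 h4 h6
    simp only [List.nodup_cons, List.mem_cons, List.not_mem_nil, or_false, not_or,
      not_false_eq_true, List.nodup_nil, and_true, Sum.inl.injEq, Sum.inr.injEq, reduceCtorEq,
      false_or, or_false] at hn
    obtain ⟨⟨a1, a2⟩, ⟨a3, a4⟩, a5, a6⟩ := hn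
    exact hexa h1 h2 h3 h4 h5 h6 a3 (by simpa using a6) a4 a1 (by simpa using a5) a2
  intro a b c d e f hn h1 h2 h3 h4 h5 h6
  rcases a with l | p
  · exact main l b c d e f hn h1 h2 h3 h4 h5 h6
  · rcases b with l | p'
    swap
    · exact QG_rr _ _ h1
    refine main l c d e f (Sum.inr p) ?_ h2 h3 h4 h5 h6 h1
    have : [Sum.inl l, c, d, e, f, Sum.inr p] = [Sum.inr p, Sum.inl l, c, d, e, f].rotate 1 := rfl
    rw [this, List.nodup_rotate]
    exact hn

end

end Pool.Agent.H422R3.C6
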