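import Pool.Agent.H422R3.C6Upper

set_option autoImplicit false

namespace Pool.Agent.H422R3.C6

open Finset

section
variable {V : Type*} [Fintype V] [DecidableEq V] {G : SimpleGraph V} [DecidableRel G.Adj]

/-- sums over directed edges may be reversed -/
lemma sum_swap {M : Type*} [AddCommMonoid M] (f : V → V → M) :
    ∑ y, ∑ z ∈ G.neighborFinset y, f y z = ∑ y, ∑ z ∈ G.neighborFinset y, f z y := by
  have e : ∀ g : V → V → M, ∑ y, ∑ z ∈ G.neighborFinset y, g y z =
      ∑ y, ∑ z, if G.Adj y z then g y z else 0 := by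
    intro g
    refine Finset.sum_congr rfl fun y _ => ?_
    rw [← Finset.sum_filter]
    refine Finset.sum_congr ?_ fun _ _ => rfl
    ext z; simp
  rw [e, e, Finset.sum_comm]
  refine Finset.sum_congr rfl fun y _ => Finset.sum_congr rfl fun z _ => ?_
  simp only [G.adj_comm]

lemma good_total_le (h : NoC6 G) :
    ∑ y, ∑ z ∈ G.neighborFinset y, ((G.neighborFinset y).filter fun x => Good G x z).card *
      ((G.neighborFinset z).filter fun w => Good G w y).card ≤ 2 * (Fintype.card V) ^ 2 := by
  have e1 : ∀ y z : V, z ∈ G.neighborFinset y →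
      ((G.neighborFinset y).filter fun x => Good G x z).card *
      ((G.neighborFinset z).filter fun w => Good G w y).card =
      ∑ x, ∑ w, if (G.Adj x y ∧ G.Adj y z ∧ G.Adj z w ∧ Good G x z ∧ Good G y w) then 1 else 0 := by
    intro y z hz
    rw [SimpleGraph.mem_neighborFinset] at hz
    rw [← Finset.card_product, Finset.card_eq_sum_ones]
    have e2 : ∑ x, ∑ w, (if (G.Adj x y ∧ G.Adj y z ∧ G.Adj z w ∧ Good G x z ∧ Good G y w)
        then 1 else 0) = ∑ p ∈ (Finset.univ : Finset V) ×ˢ (Finset.univ : Finset V),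
        (if (G.Adj p.1 y ∧ G.Adj y z ∧ G.Adj z p.2 ∧ Good G p.1 z ∧ Good G y p.2)
        then 1 else 0) := by
      rw [Finset.sum_product]
    rw [e2, ← Finset.sum_filter]
    refine Finset.sum_congr ?_ fun _ _ => rfl
    ext ⟨x, w⟩
    simp only [mem_product, mem_filter, SimpleGraph.mem_neighborFinset, mem_univ, true_and]
    constructor
    · rintro ⟨⟨h1, h2⟩, h3, h4⟩
      exact ⟨h1.symm, hz, h3, h2, h4.symm⟩
    · rintro ⟨h1, -, h3, h2, h4⟩
      exact ⟨⟨h1.symm, h2⟩, h3, h4.symm⟩
  have e3 : ∑ y, ∑ z ∈ G.neighborFinset y, ((G.neighborFinset y).filter fun x => Good G x z).card *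
      ((G.neighborFinset z).filter fun w => Good G w y).card =
      ∑ x, ∑ w, ((Finset.univ : Finset (V × V)).filter fun p =>
      G.Adj x p.1 ∧ G.Adj p.1 p.2 ∧ G.Adj p.2 w ∧ Good G x p.2 ∧ Good G p.1 w).card := by
    calc _ = ∑ y, ∑ z ∈ G.neighborFinset y, ∑ x, ∑ w,
          (if (G.Adj x y ∧ G.Adj y z ∧ G.Adj z w ∧ Good G x z ∧ Good G y w) then 1 else 0) :=
          Finset.sum_congr rfl fun y _ => Finset.sum_congr rfl fun z hz => e1 y z hz
      _ = ∑ y, ∑ z, ∑ x, ∑ w,
          (if (G.Adj x y ∧ G.Adj y z ∧ G.Adj z w ∧ Good G x z ∧ Good G y w) then 1 else 0) := by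
          refine Finset.sum_congr rfl fun y _ => ?_
          refine Finset.sum_subset (Finset.subset_univ _) fun z _ hz => ?_
          rw [SimpleGraph.mem_neighborFinset] at hz
          refine Finset.sum_eq_zero fun x _ => Finset.sum_eq_zero fun w _ => ?_
          rw [if_neg]
          rintro ⟨-, h', -⟩
          exact hz h'
      _ = ∑ x, ∑ w, ∑ y, ∑ z,
          (if (G.Adj x y ∧ G.Adj y z ∧ G.Adj z w ∧ Good G x z ∧ Good G y w) then 1 else 0) := by
          rw [Finset.sum_congr rfl fun y _ => Finset.sum_comm]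
          rw [Finset.sum_comm]
          refine Finset.sum_congr rfl fun x _ => ?_
          rw [Finset.sum_congr rfl fun y _ => Finset.sum_comm]
          rw [Finset.sum_comm]
      _ = _ := by
          refine Finset.sum_congr rfl fun x _ => Finset.sum_congr rfl fun w _ => ?_
          rw [Finset.card_filter, ← Finset.univ_product_univ, Finset.sum_product]
  rw [e3]
  calc _ ≤ ∑ _x : V, ∑ _w : V, 2 :=
        Finset.sum_le_sum fun x _ => Finset.sum_le_sum fun w _ => card_good_paths h x w
    _ = _ := by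
        simp only [Finset.sum_const, Finset.card_univ, smul_eq_mul]
        ring

lemma W_le (h : NoC6 G) :
    ∑ y, ∑ z ∈ G.neighborFinset y, G.degree y * G.degree z ≤
      2 * (Fintype.card V) ^ 2 + 20 * ∑ y, G.degree y ^ 2 := by
  set β : V → V → ℕ := fun y z => 2 + (G.neighborFinset y ∩ G.neighborFinset z).card with hβ
  have hβc : ∀ y z, β y z = β z y := by
    intro y z; simp only [hβ]; rw [Finset.inter_comm]
  have h1 : ∀ y, ∀ z ∈ G.neighborFinset y, G.degree y * G.degree z ≤
      ((G.neighborFinset y).filter fun x => Good G x z).card *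
      ((G.neighborFinset z).filter fun w => Good G w y).card
        + (β y z * G.degree y + β z y * G.degree z) := by
    intro y z hz
    rw [SimpleGraph.mem_neighborFinset] at hz
    have a1 := card_bad_le h hz
    have a2 := card_bad_le h hz.symm
    have b1 := Finset.card_filter_add_card_filter_not (s := G.neighborFinset y) (fun x => Good G x z)
    have b2 := Finset.card_filter_add_card_filter_not (s := G.neighborFinset z) (fun x => Good G x y)
    rw [SimpleGraph.card_neighborFinset_eq_degree] at b1 b2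
    set gx := ((G.neighborFinset y).filter fun x => Good G x z).card
    set gw := ((G.neighborFinset z).filter fun w => Good G w y).card
    have c1 : G.degree y ≤ gx + β y z := by simp only [hβ]; omega
    have c2 : G.degree z ≤ gw + β z y := by simp only [hβ]; omega
    have c3 : gx ≤ G.degree y := by omega
    calc G.degree y * G.degree z ≤ (gx + β y z) * G.degree z := Nat.mul_le_mul_right _ c1
      _ = gx * G.degree z + β y z * G.degree z := by ring
      _ ≤ gx * (gw + β z y) + β y z * G.degree z := by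
          have := Nat.mul_le_mul_left gx c2
          omega
      _ = gx * gw + gx * β z y + β y z * G.degree z := by ring
      _ ≤ gx * gw + (β y z * G.degree y + β z y * G.degree z) := by
          rw [hβc z y]
          have : gx * β y z ≤ β y z * G.degree y := by
            rw [mul_comm]; exact Nat.mul_le_mul_left _ c3
          omega
  have h2 : ∑ y, ∑ z ∈ G.neighborFinset y, β y z * G.degree y ≤ 10 * ∑ y, G.degree y ^ 2 := by
    rw [Finset.mul_sum]
    refine Finset.sum_le_sum fun y _ => ?_
    have e : ∑ z ∈ G.neighborFinset y, β y z * G.degree y =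
        (2 * G.degree y + ∑ z ∈ G.neighborFinset y,
          (G.neighborFinset z ∩ G.neighborFinset y).card) * G.degree y := by
      rw [← Finset.sum_mul]
      congr 1
      simp only [hβ, Finset.sum_add_distrib, Finset.sum_const, smul_eq_mul,
        SimpleGraph.card_neighborFinset_eq_degree]
      rw [mul_comm]
      congr 1
      refine Finset.sum_congr rfl fun z _ => ?_
      rw [Finset.inter_comm]
    rw [e]
    have := local_sparse h y
    rw [SimpleGraph.card_neighborFinset_eq_degree] at this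
    calc _ ≤ (2 * G.degree y + 8 * G.degree y) * G.degree y := by
          refine Nat.mul_le_mul_right _ ?_
          omega
      _ = 10 * G.degree y ^ 2 := by ring
  have h3 : ∑ y, ∑ z ∈ G.neighborFinset y, β z y * G.degree z ≤ 10 * ∑ y, G.degree y ^ 2 := by
    rw [← sum_swap (fun y z => β y z * G.degree y)]
    exact h2
  have h4 := good_total_le h
  calc _ ≤ ∑ y, ∑ z ∈ G.neighborFinset y,
        (((G.neighborFinset y).filter fun x => Good G x z).card *
      ((G.neighborFinset z).filter fun w => Good G w y).card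
        + (β y z * G.degree y + β z y * G.degree z)) :=
        Finset.sum_le_sum fun y _ => Finset.sum_le_sum fun z hz => h1 y z hz
    _ = (∑ y, ∑ z ∈ G.neighborFinset y,
        ((G.neighborFinset y).filter fun x => Good G x z).card *
      ((G.neighborFinset z).filter fun w => Good G w y).card)
        + ((∑ y, ∑ z ∈ G.neighborFinset y, β y z * G.degree y) +
          ∑ y, ∑ z ∈ G.neighborFinset y, β z y * G.degree z) := by
        simp only [Finset.sum_add_distrib]
    _ ≤ _ := by omega

lemma amgm {p r s : ℝ} (hp : 0 < p) (hr : 0 < r) (hs : 0 < s) :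
    3 ≤ p * r / s ^ 2 + (s / p + s / r) := by
  set t := Real.sqrt (p * r) with ht
  have ht0 : 0 < t := Real.sqrt_pos.2 (mul_pos hp hr)
  have ht2 : t ^ 2 = p * r := Real.sq_sqrt (mul_pos hp hr).le
  have h1 : 2 * t ≤ p + r := by
    have : 0 ≤ (Real.sqrt p - Real.sqrt r) ^ 2 := sq_nonneg _
    have e1 : t = Real.sqrt p * Real.sqrt r := Real.sqrt_mul hp.le r
    have e2 : Real.sqrt p ^ 2 = p := Real.sq_sqrt hp.le
    have e3 : Real.sqrt r ^ 2 = r := Real.sq_sqrt hr.le
    nlinarith
  have h2 : s / p + s / r = s * (p + r) / t ^ 2 := by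
    rw [ht2]; field_simp; ring
  have h3 : 2 * s / t ≤ s / p + s / r := by
    rw [h2, div_le_div_iff₀ ht0 (by positivity)]
    nlinarith [mul_pos hs ht0, mul_pos (mul_pos hs ht0) ht0]
  rw [← ht2]
  have h4 : 3 ≤ t ^ 2 / s ^ 2 + 2 * s / t := by
    have e : t ^ 2 / s ^ 2 + 2 * s / t - 3 = (t - s) ^ 2 * (t + 2 * s) / (s ^ 2 * t) := by
      field_simp; ring
    have : 0 ≤ (t - s) ^ 2 * (t + 2 * s) / (s ^ 2 * t) := by positivity
    linarith
  linarith

/-- the number of walks of length three, lower bound -/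
lemma cube_le (G : SimpleGraph V) [DecidableRel G.Adj] :
    (∑ y, (G.degree y : ℝ)) ^ 3 ≤
      (∑ y, ∑ z ∈ G.neighborFinset y, (G.degree y : ℝ) * G.degree z) * (Fintype.card V : ℝ) ^ 2 := by
  set m := ∑ y, (G.degree y : ℝ) with hm
  set W := ∑ y, ∑ z ∈ G.neighborFinset y, (G.degree y : ℝ) * G.degree z with hW
  have hW0 : 0 ≤ W := Finset.sum_nonneg fun y _ => Finset.sum_nonneg fun z _ => by positivity
  have hm0 : 0 ≤ m := Finset.sum_nonneg fun y _ => by positivity
  rcases hm0.eq_or_lt with h0 | hpos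
  · rw [← h0]
    have : 0 ≤ W * (Fintype.card V : ℝ) ^ 2 := by positivity
    simpa using this
  have hn : (0 : ℝ) < Fintype.card V := by
    by_contra hcon
    have : Fintype.card V = 0 := by
      have : (Fintype.card V : ℝ) ≤ 0 := not_lt.1 hcon
      exact_mod_cast le_antisymm this (by positivity)
    have := Fintype.card_eq_zero_iff.1 this
    simp [hm] at hpos
  set n := (Fintype.card V : ℝ) with hnn
  set s := m / n with hs
  have hs0 : 0 < s := div_pos hpos hn
  have hdeg : ∀ y z, z ∈ G.neighborFinset y → (0 : ℝ) < G.degree y ∧ (0 : ℝ) < G.degree z := by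
    intro y z hz
    rw [SimpleGraph.mem_neighborFinset] at hz
    constructor
    · have : 0 < G.degree y := (G.degree_pos_iff_exists_adj y).2 ⟨z, hz⟩
      exact_mod_cast this
    · have : 0 < G.degree z := (G.degree_pos_iff_exists_adj z).2 ⟨y, hz.symm⟩
      exact_mod_cast this
  have hA : ∑ y, ∑ z ∈ G.neighborFinset y, s / (G.degree y : ℝ) ≤ s * n := by
    have : ∀ y, ∑ z ∈ G.neighborFinset y, s / (G.degree y : ℝ) ≤ s := by
      intro y
      rw [Finset.sum_const, SimpleGraph.card_neighborFinset_eq_degree, nsmul_eq_mul]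
      rcases Nat.eq_zero_or_pos (G.degree y) with h | h
      · rw [h]; simpa using hs0.le
      · have : (0 : ℝ) < G.degree y := by exact_mod_cast h
        rw [mul_div_cancel₀ _ this.ne']
    calc _ ≤ ∑ _y : V, s := Finset.sum_le_sum fun y _ => this y
      _ = s * n := by rw [Finset.sum_const, nsmul_eq_mul, Finset.card_univ]; ring
  have hB : ∑ y, ∑ z ∈ G.neighborFinset y, s / (G.degree z : ℝ) ≤ s * n := by
    rw [← sum_swap (fun y z => s / (G.degree y : ℝ))]
    exact hA
  have hC : ∑ y, ∑ z ∈ G.neighborFinset y, (3 : ℝ) ≤ ∑ y, ∑ z ∈ G.neighborFinset y,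
      ((G.degree y : ℝ) * G.degree z / s ^ 2 + (s / (G.degree y : ℝ) + s / (G.degree z : ℝ))) :=
    Finset.sum_le_sum fun y _ => Finset.sum_le_sum fun z hz =>
      amgm (hdeg y z hz).1 (hdeg y z hz).2 hs0
  have hD : ∑ y, ∑ z ∈ G.neighborFinset y, (3 : ℝ) = 3 * m := by
    simp only [Finset.sum_const, SimpleGraph.card_neighborFinset_eq_degree, nsmul_eq_mul, hm,
      Finset.mul_sum]
    exact Finset.sum_congr rfl fun y _ => by ring
  have hE : ∑ y, ∑ z ∈ G.neighborFinset y, (G.degree y : ℝ) * G.degree z / s ^ 2 = W / s ^ 2 := by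
    simp only [hW, Finset.sum_div]
  simp only [Finset.sum_add_distrib] at hC
  rw [hD, hE] at hC
  have hsn : s * n = m := by rw [hs]; field_simp
  have h5 : m ≤ W / s ^ 2 := by linarith
  rw [le_div_iff₀ (by positivity)] at h5
  have h6 : m ^ 3 = m * s ^ 2 * n ^ 2 := by
    rw [hs]; field_simp
  rw [h6]
  exact mul_le_mul_of_nonneg_right h5 (by positivity)

/-- bound for graphs whose degrees are zero or at least `D` -/
lemma bound_core (h : NoC6 G) (D : ℕ) (hD : ∀ v, G.degree v = 0 ∨ D ≤ G.degree v) :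
    (∑ y, (G.degree y : ℝ)) ^ 3 * (D - 20) ≤ 2 * D * (Fintype.card V : ℝ) ^ 4 := by
  have h1 := W_le h
  have h2 : D * ∑ y, G.degree y ^ 2 ≤ ∑ y, ∑ z ∈ G.neighborFinset y, G.degree y * G.degree z := by
    rw [Finset.mul_sum]
    refine Finset.sum_le_sum fun y _ => ?_
    calc D * G.degree y ^ 2 = ∑ z ∈ G.neighborFinset y, G.degree y * D := by
          rw [Finset.sum_const, SimpleGraph.card_neighborFinset_eq_degree, smul_eq_mul]; ring
      _ ≤ _ := by
          refine Finset.sum_le_sum fun z hz => Nat.mul_le_mul_left _ ?_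
          rw [SimpleGraph.mem_neighborFinset] at hz
          have : 0 < G.degree z := (G.degree_pos_iff_exists_adj z).2 ⟨y, hz.symm⟩
          rcases hD z with h' | h'
          · omega
          · exact h'
  have h3 := cube_le G
  set W : ℝ := ∑ y, ∑ z ∈ G.neighborFinset y, (G.degree y : ℝ) * G.degree z with hW
  have e1 : ((∑ y, ∑ z ∈ G.neighborFinset y, G.degree y * G.degree z : ℕ) : ℝ) = W := by
    rw [hW]; push_cast; rfl
  have h1' : W ≤ 2 * (Fintype.card V : ℝ) ^ 2 + 20 * ((∑ y, G.degree y ^ 2 : ℕ) : ℝ) := by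
    rw [← e1]; exact_mod_cast h1
  have h2' : (D : ℝ) * ((∑ y, G.degree y ^ 2 : ℕ) : ℝ) ≤ W := by
    rw [← e1]; exact_mod_cast h2
  have hD0 : (0 : ℝ) ≤ D := by positivity
  have h4 : W * (D - 20) ≤ 2 * D * (Fintype.card V : ℝ) ^ 2 := by
    nlinarith [mul_le_mul_of_nonneg_left h1' hD0]
  have hm0 : 0 ≤ ∑ y, (G.degree y : ℝ) := Finset.sum_nonneg fun y _ => by positivity
  rcases le_or_gt ((D : ℝ) - 20) 0 with hneg | hpos
  · have a : (∑ y, (G.degree y : ℝ)) ^ 3 * (D - 20) ≤ 0 :=
      mul_nonpos_of_nonneg_of_nonpos (by positivity) hneg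
    have b : (0 : ℝ) ≤ 2 * D * (Fintype.card V : ℝ) ^ 4 := by positivity
    linarith
  · calc _ ≤ (W * (Fintype.card V : ℝ) ^ 2) * (D - 20) :=
          mul_le_mul_of_nonneg_right h3 hpos.le
      _ = (W * (D - 20)) * (Fintype.card V : ℝ) ^ 2 := by ring
      _ ≤ (2 * D * (Fintype.card V : ℝ) ^ 2) * (Fintype.card V : ℝ) ^ 2 :=
          mul_le_mul_of_nonneg_right h4 (by positivity)
      _ = _ := by ring

end

/-- the graph with the edges of `G` inside `U` -/
def inside {V : Type*} (G : SimpleGraph V) (U : Finset V) : SimpleGraph V where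
  Adj a b := G.Adj a b ∧ a ∈ U ∧ b ∈ U
  symm := ⟨fun _ _ h => ⟨h.1.symm, h.2.2, h.2.1⟩⟩
  loopless := ⟨fun _ h => h.1.ne rfl⟩

/-- general bound -/
theorem bound_general {V : Type*} [Fintype V] [DecidableEq V] {G : SimpleGraph V}
    [DecidableRel G.Adj] (h : NoC6 G) (D : ℕ)
    (hm : 2 * D * (Fintype.card V : ℝ) ≤ ∑ y, (G.degree y : ℝ)) (hD : 20 ≤ D) :
    (∑ y, (G.degree y : ℝ) - 2 * D * (Fintype.card V : ℝ)) ^ 3 * (D - 20) ≤
      2 * D * (Fintype.card V : ℝ) ^ 4 := by
  classical
  obtain ⟨U, -, h1, h2⟩ := core_exists G D Finset.univ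
  have : DecidableRel (inside G U).Adj := fun a b => by unfold inside; infer_instance
  have hN : NoC6 (inside G U) := by
    intro a b c d e f hn h1 h2 h3 h4 h5 h6
    exact h a b c d e f hn h1.1 h2.1 h3.1 h4.1 h5.1 h6.1
  have hdeg : ∀ v, v ∈ U → (inside G U).degree v = (G.neighborFinset v ∩ U).card := by
    intro v hv
    rw [← SimpleGraph.card_neighborFinset_eq_degree]
    congr 1
    ext x
    rw [SimpleGraph.mem_neighborFinset, mem_inter, SimpleGraph.mem_neighborFinset]
    exact ⟨fun h => ⟨h.1, h.2.2⟩, fun h => ⟨h.1, hv, h.2⟩⟩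
  have hdeg0 : ∀ v, v ∉ U → (inside G U).degree v = 0 := by
    intro v hv
    rw [← SimpleGraph.card_neighborFinset_eq_degree, Finset.card_eq_zero]
    rw [Finset.eq_empty_iff_forall_notMem]
    intro x hx
    rw [SimpleGraph.mem_neighborFinset] at hx
    exact hv hx.2.1
  have h3 := bound_core hN D (by
    intro v
    by_cases hv : v ∈ U
    · right; rw [hdeg v hv]; exact h1 v hv
    · left; exact hdeg0 v hv)
  have h4 : ∑ y, (inside G U).degree y = ∑ b ∈ U, (G.neighborFinset b ∩ U).card := by
    rw [← Finset.sum_subset (Finset.subset_univ U) (fun x _ hx => hdeg0 x hx)]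
    exact Finset.sum_congr rfl fun v hv => hdeg v hv
  have h5 : ∑ y, G.degree y = ∑ b ∈ (Finset.univ : Finset V),
      (G.neighborFinset b ∩ Finset.univ).card := by
    refine Finset.sum_congr rfl fun v _ => ?_
    rw [Finset.inter_univ, SimpleGraph.card_neighborFinset_eq_degree]
  rw [← h4, ← h5] at h2
  have h6 : (∑ y, (G.degree y : ℝ)) - 2 * D * (Fintype.card V : ℝ) ≤
      ∑ y, ((inside G U).degree y : ℝ) := by
    have : (∑ y, G.degree y) ≤ ∑ y, (inside G U).degree y + 2 * D * Fintype.card V := by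
      refine h2.trans ?_
      rw [Finset.card_univ]
      have : 2 * D * (Fintype.card V - U.card) ≤ 2 * D * Fintype.card V :=
        Nat.mul_le_mul_left _ (Nat.sub_le _ _)
      omega
    have h7 : ((∑ y, G.degree y : ℕ) : ℝ) ≤
        ((∑ y, (inside G U).degree y + 2 * D * Fintype.card V : ℕ) : ℝ) := by exact_mod_cast this
    push_cast at h7
    linarith
  have h8 : (0 : ℝ) ≤ (D : ℝ) - 20 := by
    have : (20 : ℝ) ≤ D := by exact_mod_cast hD
    linarith
  refine le_trans (mul_le_mul_of_nonneg_right (pow_le_pow_left₀ (by linarith) h6 3) h8) h3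

end Pool.Agent.H422R3.C6
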