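import Pool.Agent.H422R3.C6Count
import Pool.Agent.H422R3.C6Constr

set_option autoImplicit false

namespace Pool.Agent.H422R3.C6

open Finset SimpleGraph

lemma noC6_of_walk {V : Type*} {G : SimpleGraph V}
    (h : ¬ ∃ (v : V) (p : G.Walk v v), p.IsCycle ∧ p.length = 6) : NoC6 G := by
  intro a b c d e f hn h1 h2 h3 h4 h5 h6
  apply h
  refine ⟨a, .cons h1 (.cons h2 (.cons h3 (.cons h4 (.cons h5 (.cons h6 .nil))))), ?_, rfl⟩
  simp only [List.nodup_cons, List.mem_cons, List.not_mem_nil, or_false, not_or,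
    not_false_eq_true, List.nodup_nil, and_true] at hn
  obtain ⟨⟨ab, ac, ad, ae, af⟩, ⟨bc, bd, be, bf⟩, ⟨cd, ce, cf⟩, ⟨de, df⟩, ef⟩ := hn
  rw [Walk.cons_isCycle_iff]
  constructor
  · rw [Walk.isPath_def]
    simp only [Walk.support_cons, Walk.support_nil, List.nodup_cons, List.mem_cons,
      List.not_mem_nil, or_false, not_or, not_false_eq_true, List.nodup_nil, and_true]
    exact ⟨⟨bc, bd, be, bf, ab ∘ Eq.symm⟩, ⟨cd, ce, cf, ac ∘ Eq.symm⟩, ⟨de, df, ad ∘ Eq.symm⟩,
      ⟨ef, ae ∘ Eq.symm⟩, af ∘ Eq.symm⟩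
  · simp only [Walk.edges_cons, Walk.edges_nil, List.mem_cons, List.not_mem_nil, or_false,
      Sym2.eq_iff, not_or, not_and]
    refine ⟨⟨fun h => absurd h ab, fun h => absurd h ac⟩, ⟨fun h => absurd h ac, fun h => absurd h ad⟩,
      ⟨fun h => absurd h ad, fun h => absurd h ae⟩, ⟨fun h => absurd h ae, fun h => absurd h af⟩,
      fun h => absurd h af, fun _ h => bf h⟩

lemma walk_noC6 {V : Type*} {G : SimpleGraph V} (h : NoC6 G) {v : V} (p : G.Walk v v)
    (hp : p.IsCycle) (hl : p.length = 6) : False := by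
  have hadj : ∀ i < 6, G.Adj (p.getVert i) (p.getVert (i + 1)) := fun i hi =>
    p.adj_getVert_succ (by omega)
  have h6 : p.getVert 6 = p.getVert 0 := by
    rw [Walk.getVert_zero, ← hl, Walk.getVert_length]
  have hinj := hp.getVert_injOn'
  have hne : ∀ i j, i < j → j ≤ 5 → p.getVert i ≠ p.getVert j := by
    intro i j hij hj he
    have := hinj (show i ≤ p.length - 1 by omega) (show j ≤ p.length - 1 by omega) he
    omega
  refine h (p.getVert 0) (p.getVert 1) (p.getVert 2) (p.getVert 3) (p.getVert 4) (p.getVert 5) ?_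
    (hadj 0 (by norm_num)) (hadj 1 (by norm_num)) (hadj 2 (by norm_num)) (hadj 3 (by norm_num))
    (hadj 4 (by norm_num)) (by rw [← h6]; exact hadj 5 (by norm_num))
  simp only [List.nodup_cons, List.mem_cons, List.not_mem_nil, or_false, not_or,
    not_false_eq_true, List.nodup_nil, and_true]
  refine ⟨⟨?_, ?_, ?_, ?_, ?_⟩, ⟨?_, ?_, ?_, ?_⟩, ⟨?_, ?_, ?_⟩, ⟨?_, ?_⟩, ?_⟩ <;>
    exact hne _ _ (by norm_num) (by norm_num)

section
variable {F : Type} [Field F]

/-- `1` on lines and `0` on points -/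
def chi (x : (F × F × F) ⊕ ((F × F × F) × Bool)) : ℕ := if x.isLeft then 1 else 0

lemma chi_adj {x y : (F × F × F) ⊕ ((F × F × F) × Bool)} (h : (QG F).Adj x y) :
    chi x + chi y = 1 := by
  rcases x with l | p <;> rcases y with l' | p'
  · exact absurd h (QG_ll _ _)
  · simp [chi]
  · simp [chi]
  · exact absurd h (QG_rr _ _)

lemma walk_count {u v : (F × F × F) ⊕ ((F × F × F) × Bool)} (p : (QG F).Walk u v) :
    2 * (p.support.tail.map chi).sum + chi u = p.length + chi v := by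
  induction p with
  | nil => simp
  | @cons u w v h p ih =>
    have e : (Walk.cons h p).support.tail = w :: p.support.tail := by
      rw [Walk.support_cons, List.tail_cons]; exact p.cons_tail_support.symm
    rw [e, List.map_cons, List.sum_cons, Walk.length_cons]
    have := chi_adj h
    omega

lemma sum_chi_le [Fintype F] [DecidableEq F] (l : List ((F × F × F) ⊕ ((F × F × F) × Bool)))
    (hl : l.Nodup) : (l.map chi).sum ≤ Fintype.card F ^ 3 := by
  have e : (l.map chi).sum = ∑ x ∈ l.toFinset, chi x := by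
    rw [List.sum_toFinset _ hl]
  rw [e]
  calc ∑ x ∈ l.toFinset, chi x ≤ ∑ x, chi x :=
        Finset.sum_le_sum_of_subset (Finset.subset_univ _)
    _ = Fintype.card F ^ 3 := by
        rw [Fintype.sum_sum_type]
        simp only [chi, Sum.isLeft_inl, Sum.isLeft_inr, if_true, Bool.false_eq_true, if_false,
          Finset.sum_const_zero, add_zero, Finset.sum_const, Finset.card_univ, Fintype.card_prod,
          smul_eq_mul, mul_one]
        ring

theorem QG_no_mod [Fintype F] (hodd : Odd (Fintype.card F)) (h3 : 3 ≤ Fintype.card F)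
    {v : (F × F × F) ⊕ ((F × F × F) × Bool)} (p : (QG F).Walk v v) (hp : p.IsCycle)
    (hmod : p.length ≡ 6 [MOD Fintype.card F ^ 3]) : False := by
  classical
  have h1 := walk_count p
  have h2 := sum_chi_le p.support.tail hp.support_nodup
  set q := Fintype.card F
  set S := (p.support.tail.map chi).sum
  have hL : p.length = 2 * S := by omega
  have hq27 : 27 ≤ q ^ 3 := by
    calc 27 = 3 ^ 3 := by norm_num
      _ ≤ q ^ 3 := Nat.pow_le_pow_left h3 3
  have hqo : Odd (q ^ 3) := hodd.pow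
  set Q := q ^ 3
  have hm : p.length % Q = 6 := by
    have := hmod
    unfold Nat.ModEq at this
    rwa [Nat.mod_eq_of_lt (show 6 < Q by omega)] at this
  have hdiv := Nat.div_add_mod p.length Q
  rw [hm] at hdiv
  have hj : p.length / Q < 2 := by
    by_contra hcon
    have : Q * 2 ≤ Q * (p.length / Q) := Nat.mul_le_mul_left _ (by omega)
    omega
  have h6 : p.length = 6 := by
    interval_cases h : p.length / Q
    · omega
    · exfalso
      obtain ⟨t, ht⟩ := hqo
      omega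
  exact walk_noC6 QG_noC6 p hp h6

lemma QG_edges [Fintype F] : 2 * Fintype.card F ^ 4 ≤ (QG F).edgeSet.ncard := by
  classical
  have e1 : Nat.card ((F × F × F) × F × Bool) = 2 * Fintype.card F ^ 4 := by
    rw [Nat.card_eq_fintype_card]
    simp only [Fintype.card_prod, Fintype.card_bool]
    ring
  rw [← e1, ← Nat.card_coe_set_eq]
  let φ : (F × F × F) × F × Bool → (QG F).edgeSet := fun t =>
    ⟨s(Sum.inl t.1, Sum.inr ((t.2.1, t.2.1 * t.1.1 - t.1.2.1, t.2.1 * t.1.2.1 - t.1.2.2), t.2.2)), by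
      rw [SimpleGraph.mem_edgeSet, QG_lr]
      constructor <;> simp⟩
  refine Nat.card_le_card_of_injective φ ?_
  rintro ⟨l, a, b⟩ ⟨l', a', b'⟩ h
  have h' := Subtype.ext_iff.1 h
  simp only [φ, Sym2.eq_iff, Sum.inl.injEq, Sum.inr.injEq, Prod.mk.injEq, reduceCtorEq, false_and,
    and_false, or_false] at h'
  obtain ⟨rfl, ⟨rfl, -⟩, rfl⟩ := h'
  rfl

lemma QG_card [Fintype F] : Fintype.card ((F × F × F) ⊕ ((F × F × F) × Bool)) =
    3 * Fintype.card F ^ 3 := by
  simp only [Fintype.card_sum, Fintype.card_prod, Fintype.card_bool]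
  ring

end

/-- the lower bound for the constant `c_{6,k}`, `k = q^3` -/
theorem lower {q : ℕ} (hq : q.Prime) (h3 : 3 ≤ q) {c : ℝ}
    (hc : ∀ n : ℕ, 1 ≤ n → ∀ G : SimpleGraph (Fin n), c * n / 2 ≤ (G.edgeSet.ncard : ℝ) →
      ∃ (v : Fin n) (p : G.Walk v v), p.IsCycle ∧ p.length ≡ 6 [MOD q ^ 3]) :
    4 / 3 * (q : ℝ) ≤ c := by
  by_contra hlt
  push Not at hlt
  have : Fact q.Prime := ⟨hq⟩
  have hcardF : Fintype.card (ZMod q) = q := ZMod.card q
  have hcard : Fintype.card ((ZMod q × ZMod q × ZMod q) ⊕ ((ZMod q × ZMod q × ZMod q) × Bool)) =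
      3 * q ^ 3 := by rw [QG_card, hcardF]
  let G' := (QG (ZMod q)).overFin hcard
  let I := (QG (ZMod q)).overFinIso hcard
  have hedges : 2 * q ^ 4 ≤ G'.edgeSet.ncard := by
    have h1 := QG_edges (F := ZMod q)
    rw [hcardF, ← Nat.card_coe_set_eq] at h1
    rw [← Nat.card_coe_set_eq]
    exact h1.trans (Nat.card_congr I.mapEdgeSet).le
  have hq0 : (0 : ℝ) < q := by exact_mod_cast hq.pos
  obtain ⟨v, p, hp, hmod⟩ := hc (3 * q ^ 3) (by
    have := Nat.pos_of_ne_zero (pow_ne_zero 3 hq.pos.ne')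
    omega) G' (by
      have h1 : ((2 * q ^ 4 : ℕ) : ℝ) ≤ G'.edgeSet.ncard := by exact_mod_cast hedges
      refine le_trans ?_ h1
      push_cast
      have h2 : (0 : ℝ) < q ^ 3 := by positivity
      nlinarith [mul_lt_mul_of_pos_right hlt h2])
  have hinj : Function.Injective (I.symm : G' →g QG (ZMod q)) := I.symm.injective
  have hp' : (p.map (I.symm : G' →g QG (ZMod q))).IsCycle :=
    (Walk.isCycle_map_iff_of_injective hinj).2 hp
  refine QG_no_mod (F := ZMod q) ?_ (by rw [hcardF]; exact h3) _ hp' ?_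
  · rw [hcardF]
    exact hq.odd_of_ne_two (by omega)
  · rw [Walk.length_map, hcardF]
    exact hmod

/-- the upper bound for the number of edges of a hexagon-free graph on `q^3` vertices -/
theorem upper {q : ℕ} (hq : 4000000 ≤ q) (H : SimpleGraph (Fin (q ^ 3)))
    (hH : ¬ ∃ (v : Fin (q ^ 3)) (p : H.Walk v v), p.IsCycle ∧ p.length = 6) :
    2 * (H.edgeSet.ncard : ℝ) / ((q ^ 3 : ℕ) : ℝ) ≤ 12698 / 10000 * q := by
  classical
  have hN := noC6_of_walk hH
  have hq0 : (4000000 : ℝ) ≤ q := by exact_mod_cast hq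
  have hqp : (0 : ℝ) < q := by linarith
  have hq3 : (0 : ℝ) < (q : ℝ) ^ 3 := by positivity
  have hsum : ∑ y, (H.degree y : ℝ) = 2 * (H.edgeSet.ncard : ℝ) := by
    have h1 := H.sum_degrees_eq_twice_card_edges
    have h2 : H.edgeSet.ncard = H.edgeFinset.card := by
      rw [← SimpleGraph.coe_edgeFinset, Set.ncard_coe_finset]
    rw [h2]
    exact_mod_cast h1
  rw [div_le_iff₀ (by push_cast; exact hq3)]
  push_cast
  by_contra hcon
  push Not at hcon
  rw [← hsum] at hcon
  have hb := bound_general hN 2000 (by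
    rw [Fintype.card_fin]
    push_cast
    nlinarith) (by norm_num)
  rw [Fintype.card_fin] at hb
  push_cast at hb
  have h4 : (0 : ℝ) < (q : ℝ) ^ 4 := by positivity
  have h5 : 12688 / 10000 * (q : ℝ) ^ 4 ≤ ∑ y, (H.degree y : ℝ) - 2 * 2000 * (q : ℝ) ^ 3 := by
    nlinarith
  have h6 : (12688 / 10000 * (q : ℝ) ^ 4) ^ 3 ≤
      (∑ y, (H.degree y : ℝ) - 2 * 2000 * (q : ℝ) ^ 3) ^ 3 :=
    pow_le_pow_left₀ (by positivity) h5 3
  have h7 : (12688 / 10000 * (q : ℝ) ^ 4) ^ 3 = (12688 / 10000) ^ 3 * (q : ℝ) ^ 12 := by ring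
  rw [h7] at h6
  have h12 : (0 : ℝ) < (q : ℝ) ^ 12 := by positivity
  have h8 : ((q : ℝ) ^ 3) ^ 4 = (q : ℝ) ^ 12 := by ring
  rw [h8] at hb
  nlinarith

end Pool.Agent.H422R3.C6
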