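import Mathlib

set_option autoImplicit false

namespace Pool.Agent.H422R3.C6

open Finset

/-- no six distinct vertices in cyclic adjacency -/
def NoC6 {V : Type*} (G : SimpleGraph V) : Prop :=
  ∀ a b c d e f : V, [a, b, c, d, e, f].Nodup → G.Adj a b → G.Adj b c → G.Adj c d →
    G.Adj d e → G.Adj e f → G.Adj f a → False

section
variable {V : Type*} [Fintype V] [DecidableEq V] (G : SimpleGraph V) [DecidableRel G.Adj]

lemma erase_sum (A : Finset V) (a : V) (ha : a ∈ A) :
    ∑ b ∈ A, (G.neighborFinset b ∩ A).card =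
      ∑ b ∈ A.erase a, (G.neighborFinset b ∩ A.erase a).card + 2 * (G.neighborFinset a ∩ A).card := by
  rw [← Finset.add_sum_erase _ _ ha]
  have h1 : ∀ b ∈ A.erase a, (G.neighborFinset b ∩ A).card =
      (G.neighborFinset b ∩ A.erase a).card + if G.Adj a b then 1 else 0 := by
    intro b hb
    have e : G.neighborFinset b ∩ A.erase a = (G.neighborFinset b ∩ A).erase a := by
      ext x; simp only [mem_inter, mem_erase]; tauto
    rw [e]
    split_ifs with h
    · have : a ∈ G.neighborFinset b ∩ A := by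
        simp only [mem_inter, SimpleGraph.mem_neighborFinset]; exact ⟨h.symm, ha⟩
      rw [Finset.card_erase_of_mem this]
      have := Finset.card_pos.2 ⟨a, this⟩
      omega
    · have : a ∉ G.neighborFinset b ∩ A := by
        simp only [mem_inter, SimpleGraph.mem_neighborFinset]
        intro h'
        exact h h'.1.symm
      rw [Finset.erase_eq_of_notMem this]; rfl
  rw [Finset.sum_congr rfl h1, Finset.sum_add_distrib]
  have h2 : ∑ b ∈ A.erase a, (if G.Adj a b then 1 else 0) = (G.neighborFinset a ∩ A).card := by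
    rw [← Finset.card_filter]
    congr 1
    ext x
    simp only [mem_filter, mem_erase, mem_inter, SimpleGraph.mem_neighborFinset]
    constructor
    · rintro ⟨⟨_, h⟩, h'⟩; exact ⟨h', h⟩
    · rintro ⟨h, h'⟩; exact ⟨⟨h.ne', h'⟩, h⟩
  rw [h2]
  ring

lemma core_exists (D : ℕ) : ∀ A : Finset V, ∃ U ⊆ A, (∀ v ∈ U, D ≤ (G.neighborFinset v ∩ U).card) ∧
    ∑ b ∈ A, (G.neighborFinset b ∩ A).card ≤
      ∑ b ∈ U, (G.neighborFinset b ∩ U).card + 2 * D * (A.card - U.card) := by
  intro A
  induction A using Finset.strongInduction with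
  | H A ih =>
    by_cases h : ∀ v ∈ A, D ≤ (G.neighborFinset v ∩ A).card
    · exact ⟨A, Finset.Subset.refl _, h, by simp⟩
    · push Not at h
      obtain ⟨a, ha, hlt⟩ := h
      obtain ⟨U, hU, h1, h2⟩ := ih (A.erase a) (Finset.erase_ssubset ha)
      refine ⟨U, hU.trans (Finset.erase_subset _ _), h1, ?_⟩
      rw [erase_sum G A a ha]
      have h3 := Finset.card_erase_of_mem ha
      have h4 := Finset.card_le_card hU
      have h5 := Finset.card_pos.2 ⟨a, ha⟩
      have h6 : A.card - U.card = ((A.erase a).card - U.card) + 1 := by omega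
      rw [h6]
      have : 2 * D * ((A.erase a).card - U.card + 1) =
        2 * D * ((A.erase a).card - U.card) + 2 * D := by ring
      omega

variable {G}

lemma local_sparse (h : NoC6 G) (z : V) :
    ∑ a ∈ G.neighborFinset z, (G.neighborFinset a ∩ G.neighborFinset z).card ≤
      8 * (G.neighborFinset z).card := by
  obtain ⟨U, hU, h1, h2⟩ := core_exists G 4 (G.neighborFinset z)
  rcases U.eq_empty_or_nonempty with rfl | ⟨a1, ha1⟩
  · simpa using h2
  · exfalso
    have step : ∀ (a : V) (s : Finset V), a ∈ U → s.card ≤ 3 →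
        ∃ b ∈ U, G.Adj a b ∧ b ∉ s := by
      intro a s ha hs
      have h3 := h1 a ha
      have h4 : ((G.neighborFinset a ∩ U) \ s).Nonempty := by
        rw [← Finset.card_pos]
        have := Finset.le_card_sdiff s (G.neighborFinset a ∩ U)
        omega
      obtain ⟨b, hb⟩ := h4
      simp only [mem_sdiff, mem_inter, SimpleGraph.mem_neighborFinset] at hb
      exact ⟨b, hb.1.2, hb.1.1, hb.2⟩
    obtain ⟨a2, ha2, h12, -⟩ := step a1 ∅ ha1 (by simp)
    obtain ⟨a3, ha3, h23, n3⟩ := step a2 {a1} ha2 (by simp)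
    obtain ⟨a4, ha4, h34, n4⟩ := step a3 {a1, a2} ha3 (by
      refine (Finset.card_le_two).trans (by norm_num))
    obtain ⟨a5, ha5, h45, n5⟩ := step a4 {a1, a2, a3} ha4 (Finset.card_le_three)
    have hz : ∀ a ∈ U, G.Adj z a := by
      intro a ha
      have := hU ha
      rwa [SimpleGraph.mem_neighborFinset] at this
    simp only [mem_singleton, mem_insert, not_or] at n3 n4 n5
    refine h z a1 a2 a3 a4 a5 ?_ (hz _ ha1) h12 h23 h34 h45 (hz _ ha5).symm
    simp only [List.nodup_cons, List.mem_cons, List.not_mem_nil, or_false, not_or, not_false_eq_true,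
      List.nodup_nil, and_true]
    exact ⟨⟨(hz _ ha1).ne, (hz _ ha2).ne, (hz _ ha3).ne, (hz _ ha4).ne, (hz _ ha5).ne⟩,
      ⟨h12.ne, Ne.symm n3, Ne.symm n4.1, Ne.symm n5.1⟩, ⟨h23.ne, Ne.symm n4.2, Ne.symm n5.2.1⟩,
      ⟨h34.ne, Ne.symm n5.2.2⟩, h45.ne⟩

/-- good pairs: distinct, not adjacent, at most two common neighbours -/
def Good (G : SimpleGraph V) [DecidableRel G.Adj] (a c : V) : Prop :=
  a ≠ c ∧ ¬ G.Adj a c ∧ (G.neighborFinset a ∩ G.neighborFinset c).card ≤ 2

instance : DecidableRel (Good G) := fun a c => by unfold Good; infer_instance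

lemma Good.symm {a c : V} (h : Good G a c) : Good G c a :=
  ⟨h.1.symm, fun h' => h.2.1 h'.symm, by rw [Finset.inter_comm]; exact h.2.2⟩

lemma bad_unique (h : NoC6 G) {a a' b c : V} (hbc : G.Adj b c) (hab : G.Adj a b) (hab' : G.Adj a' b)
    (hac : a ≠ c) (hac' : a' ≠ c) (nac : ¬ G.Adj a c) (nac' : ¬ G.Adj a' c)
    (h3 : 2 < (G.neighborFinset a ∩ G.neighborFinset c).card)
    (h3' : 2 < (G.neighborFinset a' ∩ G.neighborFinset c).card) : a = a' := by
  by_contra hne
  have hP : 1 < ((G.neighborFinset a ∩ G.neighborFinset c).erase b).card := by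
    have := Finset.pred_card_le_card_erase (s := G.neighborFinset a ∩ G.neighborFinset c) (a := b)
    omega
  have hR : 1 < ((G.neighborFinset a' ∩ G.neighborFinset c).erase b).card := by
    have := Finset.pred_card_le_card_erase (s := G.neighborFinset a' ∩ G.neighborFinset c) (a := b)
    omega
  obtain ⟨p, hp⟩ := Finset.card_pos.1 (lt_trans zero_lt_one hP)
  obtain ⟨r, hr, hpr⟩ := Finset.exists_mem_ne hR p
  simp only [mem_erase, mem_inter, SimpleGraph.mem_neighborFinset] at hp hr
  obtain ⟨hpb, hpa, hpc⟩ := hp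
  obtain ⟨hrb, hra, hrc⟩ := hr
  refine h c p a b a' r ?_ hpc hpa.symm hab hab'.symm hra hrc.symm
  simp only [List.nodup_cons, List.mem_cons, List.not_mem_nil, or_false, not_or, not_false_eq_true,
      List.nodup_nil, and_true]
  refine ⟨⟨hpc.ne, hac.symm, hbc.ne', hac'.symm, hrc.ne⟩, ⟨hpa.ne', hpb, ?_, hpr.symm⟩,
    ⟨hab.ne, hne, ?_⟩, ⟨hab'.ne', hrb.symm⟩, hra.ne⟩
  · rintro rfl; exact nac' hpc.symm
  · rintro rfl; exact nac hrc.symm

/-- the number of `x ∈ N(y)` with `(x, z)` not good is at most `2 + codeg(y, z)` -/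
lemma card_bad_le (h : NoC6 G) {y z : V} (hyz : G.Adj y z) :
    ((G.neighborFinset y).filter fun x => ¬ Good G x z).card ≤
      2 + (G.neighborFinset y ∩ G.neighborFinset z).card := by
  have hsub : (G.neighborFinset y).filter (fun x => ¬ Good G x z) ⊆
      ({z} ∪ (G.neighborFinset y ∩ G.neighborFinset z)) ∪
        (G.neighborFinset y).filter (fun x => x ≠ z ∧ ¬ G.Adj x z ∧
          2 < (G.neighborFinset x ∩ G.neighborFinset z).card) := by
    intro x hx
    simp only [mem_filter, Good, not_and, not_le, SimpleGraph.mem_neighborFinset, mem_union,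
      mem_singleton, mem_inter] at hx ⊢
    by_cases h1 : x = z
    · left; left; exact h1
    · by_cases h2 : G.Adj x z
      · left; right; exact ⟨hx.1, h2.symm⟩
      · right; exact ⟨hx.1, h1, h2, hx.2 h1 h2⟩
  have h1 := Finset.card_le_card hsub
  have h2 : ((G.neighborFinset y).filter (fun x => x ≠ z ∧ ¬ G.Adj x z ∧
          2 < (G.neighborFinset x ∩ G.neighborFinset z).card)).card ≤ 1 := by
    rw [Finset.card_le_one]
    intro a ha a' ha'
    simp only [mem_filter, SimpleGraph.mem_neighborFinset] at ha ha'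
    exact bad_unique h hyz ha.1.symm ha'.1.symm ha.2.1 ha'.2.1 ha.2.2.1 ha'.2.2.1 ha.2.2.2 ha'.2.2.2
  have h3 := Finset.card_union_le ({z} ∪ (G.neighborFinset y ∩ G.neighborFinset z))
    ((G.neighborFinset y).filter (fun x => x ≠ z ∧ ¬ G.Adj x z ∧
          2 < (G.neighborFinset x ∩ G.neighborFinset z).card))
  have h4 := Finset.card_union_le ({z} : Finset V) (G.neighborFinset y ∩ G.neighborFinset z)
  rw [Finset.card_singleton] at h4
  omega

/-- for fixed ends there are at most two good paths of length three -/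
lemma card_good_paths (h : NoC6 G) (x w : V) :
    ((Finset.univ : Finset (V × V)).filter fun p =>
      G.Adj x p.1 ∧ G.Adj p.1 p.2 ∧ G.Adj p.2 w ∧ Good G x p.2 ∧ Good G p.1 w).card ≤ 2 := by
  set P := (Finset.univ : Finset (V × V)).filter fun p =>
      G.Adj x p.1 ∧ G.Adj p.1 p.2 ∧ G.Adj p.2 w ∧ Good G x p.2 ∧ Good G p.1 w with hP
  have key : ∀ p ∈ P, ∀ p' ∈ P, p.1 = p'.1 ∨ p.2 = p'.2 := by
    rintro ⟨y, z⟩ hp ⟨y', z'⟩ hp'
    simp only [hP, mem_filter, mem_univ, true_and] at hp hp' ⊢
    obtain ⟨hxy, hyz, hzw, gxz, gyw⟩ := hp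
    obtain ⟨hxy', hyz', hzw', gxz', gyw'⟩ := hp'
    by_contra hcon
    push Not at hcon
    refine h x y z w z' y' ?_ hxy hyz hzw hzw'.symm hyz'.symm hxy'.symm
    simp only [List.nodup_cons, List.mem_cons, List.not_mem_nil, or_false, not_or,
      not_false_eq_true, List.nodup_nil, and_true]
    refine ⟨⟨hxy.ne, gxz.1, ?_, gxz'.1, hxy'.ne⟩, ⟨hyz.ne, gyw.1, ?_, hcon.1⟩,
      ⟨hzw.ne, hcon.2, ?_⟩, ⟨hzw'.ne', gyw'.1.symm⟩, hyz'.ne'⟩
    · rintro rfl; exact gxz.2.1 hzw.symm
    · rintro rfl; exact gxz'.2.1 hxy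
    · rintro rfl; exact gxz.2.1 hxy'
  rcases P.eq_empty_or_nonempty with he | ⟨⟨y0, z0⟩, h0⟩
  · rw [he]; simp
  · by_cases hA : ∀ p ∈ P, p.1 = y0
    · have h0' := h0
      simp only [hP, mem_filter, mem_univ, true_and] at h0'
      refine le_trans ?_ h0'.2.2.2.2.2.2
      refine Finset.card_le_card_of_injOn Prod.snd ?_ ?_
      · intro p hp
        have hy := hA p hp
        simp only [hP, mem_univ, true_and, coe_filter, Set.mem_ofPred_eq] at hp
        simp only [coe_inter, Set.mem_inter_iff, mem_coe, SimpleGraph.mem_neighborFinset]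
        rw [← hy]
        exact ⟨hp.2.1, hp.2.2.1.symm⟩
      · intro p hp p' hp' hpp
        exact Prod.ext ((hA p hp).trans (hA p' hp').symm) hpp
    · have hB : ∀ p ∈ P, p.2 = z0 := by
        push Not at hA
        obtain ⟨p1, hp1, hne⟩ := hA
        have e1 : p1.2 = z0 := by
          rcases key p1 hp1 _ h0 with h' | h'
          · exact absurd h' hne
          · exact h'
        intro p hp
        by_contra hz
        have e2 : p.1 = y0 := by
          rcases key p hp _ h0 with h' | h'
          · exact h'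
          · exact absurd h' hz
        rcases key p hp p1 hp1 with h' | h'
        · exact hne (h'.symm.trans e2)
        · exact hz (h'.trans e1)
      have h0' := h0
      simp only [hP, mem_filter, mem_univ, true_and] at h0'
      refine le_trans ?_ h0'.2.2.2.1.2.2
      refine Finset.card_le_card_of_injOn Prod.fst ?_ ?_
      · intro p hp
        have hy := hB p hp
        simp only [hP, mem_univ, true_and, coe_filter, Set.mem_ofPred_eq] at hp
        simp only [coe_inter, Set.mem_inter_iff, mem_coe, SimpleGraph.mem_neighborFinset]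
        rw [← hy]
        exact ⟨hp.1, hp.2.1.symm⟩
      · intro p hp p' hp' hpp
        exact Prod.ext hpp ((hB p hp).trans (hB p' hp').symm)

end

end Pool.Agent.H422R3.C6
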