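import Mathlib

/-! The forbidden graph and basic embedding lemmas. -/

open SimpleGraph Finset

namespace H422CE

/-- part sizes of `F₀`: `1`, `d + 1`, then `r` parts of size `s` -/
def sz (r d s : ℕ) : Fin (r + 2) → ℕ :=
  Fin.cons 1 (Fin.cons (d + 1) fun _ => s)

/-- `F₀ = K_{1, d+1, s, …, s}` (complete multipartite with `r + 2` parts). -/
abbrev F0 (r d s : ℕ) : SimpleGraph (Σ i : Fin (r + 2), Fin (sz r d s i)) :=
  completeMultipartiteGraph fun i : Fin (r + 2) => Fin (sz r d s i)

/-- `q` vertex-disjoint copies of `K_{r+2}`. -/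
def QK (q r : ℕ) : SimpleGraph (Fin q × Fin (r + 2)) where
  Adj a b := a.1 = b.1 ∧ a.2 ≠ b.2
  symm := ⟨fun _ _ h => ⟨h.1.symm, h.2.symm⟩⟩
  loopless := ⟨fun _ h => h.2 rfl⟩

/-- The forbidden graph: disjoint union of `F₀` and `q` copies of `K_{r+2}`. -/
abbrev FF (r q d s : ℕ) :
    SimpleGraph ((Σ i : Fin (r + 2), Fin (sz r d s i)) ⊕ (Fin q × Fin (r + 2))) :=
  F0 r d s ⊕g QK q r

variable {V : Type*} [DecidableEq V]

omit [DecidableEq V] in
theorem F0_copy (G : SimpleGraph V) {r d s : ℕ} (S : Fin (r + 2) → Finset V)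
    (hc : ∀ i, sz r d s i ≤ #(S i))
    (ha : ∀ i j, i < j → ∀ v ∈ S i, ∀ w ∈ S j, G.Adj v w) :
    ∃ f : Copy (F0 r d s) G, ∀ x, f x ∈ S x.1 := by
  classical
  have h1 : ∀ i, Nonempty (Fin (sz r d s i) ↪ {v // v ∈ S i}) := by
    intro i
    apply Function.Embedding.nonempty_of_card_le
    rw [Fintype.card_fin, Fintype.card_coe]
    exact hc i
  have g := fun i => Classical.choice (h1 i)
  have hadj : ∀ i j, i ≠ j → ∀ v ∈ S i, ∀ w ∈ S j, G.Adj v w := by
    intro i j hij v hv w hw
    rcases lt_or_gt_of_ne hij with h | h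
    · exact ha i j h v hv w hw
    · exact (ha j i h w hw v hv).symm
  refine ⟨⟨⟨fun x => (g x.1 x.2).1, ?_⟩, ?_⟩, fun x => (g x.1 x.2).2⟩
  · intro x y hxy
    have : x.1 ≠ y.1 := hxy
    exact hadj _ _ this _ (g x.1 x.2).2 _ (g y.1 y.2).2
  · rintro ⟨i, x⟩ ⟨j, y⟩ hxy
    have hxy' : ((g i x).1 : V) = (g j y).1 := hxy
    by_cases hij : i = j
    · subst hij
      have := (g i).injective (Subtype.ext hxy')
      rw [this]
    · have := hadj i j hij _ (g i x).2 _ (g j y).2
      rw [hxy'] at this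
      exact absurd this (G.irrefl)

/-- `F₀` from a centre, a set of leaves and `r` further parts. -/
theorem F0_copy' (G : SimpleGraph V) {r d s : ℕ} (c : V) (D : Finset V) (T : Fin r → Finset V)
    (hD : d + 1 ≤ #D) (hT : ∀ j, s ≤ #(T j))
    (hcD : ∀ v ∈ D, G.Adj c v) (hcT : ∀ j, ∀ v ∈ T j, G.Adj c v)
    (hDT : ∀ j, ∀ v ∈ D, ∀ w ∈ T j, G.Adj v w)
    (hTT : ∀ i j, i ≠ j → ∀ v ∈ T i, ∀ w ∈ T j, G.Adj v w) :
    ∃ f : Copy (F0 r d s) G, ∀ x, f x = c ∨ f x ∈ D ∨ ∃ j, f x ∈ T j := by
  let S : Fin (r + 2) → Finset V := Fin.cons {c} (Fin.cons D T)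
  obtain ⟨f, hf⟩ := F0_copy G (r := r) (d := d) (s := s) S (by
    intro i
    refine Fin.cases ?_ (fun i => ?_) i
    · simp [S, sz]
    · refine Fin.cases ?_ (fun i => ?_) i
      · simpa [S, sz] using hD
      · simpa [S, sz] using hT i) (by
    intro i j
    refine Fin.cases ?_ (fun i => ?_) i
    · refine Fin.cases ?_ (fun j => ?_) j
      · intro h; exact absurd h (lt_irrefl _)
      · refine Fin.cases ?_ (fun j => ?_) j
        · intro _ v hv w hw
          simp only [S, Fin.cons_zero, mem_singleton] at hv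
          subst hv
          exact hcD w hw
        · intro _ v hv w hw
          simp only [S, Fin.cons_zero, mem_singleton] at hv
          subst hv
          exact hcT j w hw
    · refine Fin.cases ?_ (fun j => ?_) j
      · intro h; exact absurd h (by simp)
      · refine Fin.cases ?_ (fun i => ?_) i
        · refine Fin.cases ?_ (fun j => ?_) j
          · intro h; exact absurd h (lt_irrefl _)
          · intro _ v hv w hw
            exact hDT j v hv w hw
        · refine Fin.cases ?_ (fun j => ?_) j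
          · intro h; exact absurd h (by simp)
          · intro h v hv w hw
            apply hTT i j _ v hv w hw
            rintro rfl
            exact lt_irrefl _ h)
  refine ⟨f, fun x => ?_⟩
  have := hf x
  obtain ⟨i, y⟩ := x
  revert this y
  refine Fin.cases ?_ (fun i => ?_) i
  · intro y hy
    left
    simpa [S] using hy
  · refine Fin.cases ?_ (fun i => ?_) i
    · intro y hy
      right; left; exact hy
    · intro y hy
      right; right; exact ⟨i, hy⟩

/-- there are `k` pairwise disjoint `m`-cliques avoiding `X` -/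
def HasCl (G : SimpleGraph V) (m k : ℕ) (X : Finset V) : Prop :=
  ∃ C : Fin k → Finset V, (∀ i, G.IsNClique m (C i)) ∧ (∀ i j, i ≠ j → Disjoint (C i) (C j)) ∧
    ∀ i, Disjoint (C i) X

theorem HasCl.zero (G : SimpleGraph V) (m : ℕ) (X : Finset V) : HasCl G m 0 X :=
  ⟨fun _ => ∅, fun i => i.elim0, fun i => i.elim0, fun i => i.elim0⟩

theorem HasCl.succ {G : SimpleGraph V} {m k : ℕ} {X C : Finset V} (hC : G.IsNClique m C)
    (hCX : Disjoint C X) (h : HasCl G m k (X ∪ C)) : HasCl G m (k + 1) X := by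
  obtain ⟨D, h1, h2, h3⟩ := h
  refine ⟨Fin.cons C D, ?_, ?_, ?_⟩
  · intro i
    refine Fin.cases ?_ (fun i => ?_) i
    · exact hC
    · exact h1 i
  · intro i j
    refine Fin.cases ?_ (fun i => ?_) i
    · refine Fin.cases ?_ (fun j => ?_) j
      · intro h; exact absurd rfl h
      · intro _
        exact ((disjoint_union_right.1 (h3 j)).2).symm
    · refine Fin.cases ?_ (fun j => ?_) j
      · intro _
        exact (disjoint_union_right.1 (h3 i)).2
      · intro h
        exact h2 i j (fun h' => h (by rw [h']))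
  · intro i
    refine Fin.cases ?_ (fun i => ?_) i
    · exact hCX
    · exact (disjoint_union_right.1 (h3 i)).1

theorem dichotomy (G : SimpleGraph V) (m : ℕ) : ∀ (k : ℕ) (X : Finset V), HasCl G m k X ∨
    ∃ Y : Finset V, X ⊆ Y ∧ #Y ≤ #X + k * m ∧ ∀ C : Finset V, G.IsNClique m C → ¬ Disjoint C Y
  | 0, X => Or.inl (HasCl.zero G m X)
  | k + 1, X => by
    by_cases h : ∃ C : Finset V, G.IsNClique m C ∧ Disjoint C X
    · obtain ⟨C, hC, hCX⟩ := h
      rcases dichotomy G m k (X ∪ C) with h | ⟨Y, h1, h2, h3⟩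
      · exact Or.inl (HasCl.succ hC hCX h)
      · refine Or.inr ⟨Y, subset_union_left.trans h1, ?_, h3⟩
        have : #(X ∪ C) ≤ #X + m := by
          refine (card_union_le _ _).trans ?_
          rw [hC.card_eq]
        calc #Y ≤ #(X ∪ C) + k * m := h2
          _ ≤ #X + m + k * m := by omega
          _ = #X + (k + 1) * m := by ring
    · push Not at h
      exact Or.inr ⟨X, Subset.rfl, by omega, h⟩

theorem FF_contained (G : SimpleGraph V) {r q d s : ℕ} (f : Copy (F0 r d s) G)
    (X : Finset V) (hX : ∀ x, f x ∈ X) (h : HasCl G (r + 2) q X) : FF r q d s ⊑ G := by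
  classical
  obtain ⟨C, h1, h2, h3⟩ := h
  have h4 : ∀ i, Nonempty (Fin (r + 2) ↪ {v // v ∈ C i}) := by
    intro i
    apply Function.Embedding.nonempty_of_card_le
    rw [Fintype.card_fin, Fintype.card_coe, (h1 i).card_eq]
  have g := fun i => Classical.choice (h4 i)
  refine ⟨⟨⟨Sum.elim f (fun x => (g x.1 x.2).1), ?_⟩, ?_⟩⟩
  · rintro (x | x) (y | y) hxy
    · exact f.toHom.map_adj hxy
    · exact absurd hxy Bool.false_ne_true
    · exact absurd hxy Bool.false_ne_true
    · obtain ⟨i, x⟩ := x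
      obtain ⟨j, y⟩ := y
      obtain ⟨hij, hne⟩ : i = j ∧ x ≠ y := hxy
      subst hij
      apply (h1 i).isClique (g i x).2 (g i y).2
      intro h
      exact hne ((g i).injective (Subtype.ext h))
  · rintro (x | x) (y | y) hxy
    · have : f x = f y := hxy
      rw [f.injective this]
    · have h5 : f x = (g y.1 y.2).1 := hxy
      have := disjoint_left.1 (h3 y.1) (g y.1 y.2).2
      rw [← h5] at this
      exact absurd (hX x) this
    · have h5 : (g x.1 x.2).1 = f y := hxy
      have := disjoint_left.1 (h3 x.1) (g x.1 x.2).2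
      rw [h5] at this
      exact absurd (hX y) this
    · obtain ⟨i, x⟩ := x
      obtain ⟨j, y⟩ := y
      have h5 : (g i x).1 = (g j y).1 := hxy
      by_cases hij : i = j
      · subst hij
        rw [(g i).injective (Subtype.ext h5)]
      · have := disjoint_left.1 (h2 i j hij) (g i x).2
        rw [h5] at this
        exact absurd (g j y).2 this

/-- Greedy lemma: choose pairwise completely joined subsets. -/
theorem greedy {ι : Type*} [DecidableEq ι] (G : SimpleGraph V) [DecidableRel G.Adj]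
    (N : ι → Finset V) (t μ R : ℕ)
    (hmiss : ∀ i j, i ≠ j → ∀ v ∈ N i, #{w ∈ N j | ¬ G.Adj v w} ≤ μ) :
    ∀ I : Finset ι, (#I * t * μ + t ≤ R) → (∀ i ∈ I, R ≤ #(N i)) →
    ∃ T : ι → Finset V, (∀ i ∈ I, T i ⊆ N i ∧ #(T i) = t) ∧
      ∀ i ∈ I, ∀ j ∈ I, i ≠ j → ∀ v ∈ T i, ∀ w ∈ T j, G.Adj v w := by
  intro I
  induction I using Finset.induction_on with
  | empty => intro _ _; exact ⟨fun _ => ∅, by simp, by simp⟩
  | insert a I ha ih =>
    intro hR hN
    rw [card_insert_of_notMem ha] at hR
    have hR' : #I * t * μ + t ≤ R := by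
      have : #I * t * μ ≤ (#I + 1) * t * μ := by
        apply Nat.mul_le_mul_right; apply Nat.mul_le_mul_right; omega
      omega
    obtain ⟨T, h1, h2⟩ := ih hR' (fun i hi => hN i (mem_insert_of_mem hi))
    -- bad vertices
    let bad : Finset V := I.biUnion fun i => (T i).biUnion fun v => {w ∈ N a | ¬ G.Adj v w}
    have hbad : #(bad) ≤ #I * t * μ := by
      calc #(bad) ≤ ∑ i ∈ I, #((T i).biUnion fun v => {w ∈ N a | ¬ G.Adj v w}) := card_biUnion_le
        _ ≤ ∑ i ∈ I, t * μ := by
            apply Finset.sum_le_sum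
            intro i hi
            calc #((T i).biUnion fun v => {w ∈ N a | ¬ G.Adj v w})
                ≤ ∑ v ∈ T i, #{w ∈ N a | ¬ G.Adj v w} := card_biUnion_le
              _ ≤ ∑ v ∈ T i, μ := by
                  apply Finset.sum_le_sum
                  intro v hv
                  apply hmiss i a _ v ((h1 i hi).1 hv)
                  rintro rfl
                  exact ha hi
              _ = t * μ := by rw [sum_const, (h1 i hi).2, smul_eq_mul]
        _ = #I * t * μ := by rw [sum_const, smul_eq_mul, mul_assoc]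
    have hgood : t ≤ #(N a \ bad) := by
      have h3 := le_card_sdiff bad (N a)
      have h4 := hN a (mem_insert_self _ _)
      have h5 : #I * t * μ ≤ (#I + 1) * t * μ := by
        apply Nat.mul_le_mul_right; apply Nat.mul_le_mul_right; omega
      omega
    obtain ⟨Ta, hTa, hTac⟩ := exists_subset_card_eq hgood
    have key : ∀ i ∈ I, ∀ v ∈ T i, ∀ w ∈ Ta, G.Adj v w := by
      intro i hi v hv w hw
      have h6 := mem_sdiff.1 (hTa hw)
      by_contra hnot
      apply h6.2
      simp only [bad, mem_biUnion, mem_filter]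
      exact ⟨i, hi, v, hv, h6.1, hnot⟩
    refine ⟨Function.update T a Ta, ?_, ?_⟩
    · intro i hi0
      rcases mem_insert.1 hi0 with rfl | hi
      · rw [Function.update_self]
        exact ⟨hTa.trans sdiff_subset, hTac⟩
      · have : i ≠ a := fun h => ha (h ▸ hi)
        rw [Function.update_of_ne this]
        exact h1 i hi
    · intro i hi0 j hj0 hij v hv w hw
      rcases mem_insert.1 hi0 with rfl | hi
      · have hj' : j ∈ I := (mem_insert.1 hj0).resolve_left (fun h => hij h.symm)
        rw [Function.update_self] at hv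
        rw [Function.update_of_ne (fun h => hij h.symm)] at hw
        exact (key j hj' w hw v hv).symm
      · have hia : i ≠ a := fun h => ha (h ▸ hi)
        rw [Function.update_of_ne hia] at hv
        rcases mem_insert.1 hj0 with rfl | hj
        · rw [Function.update_self] at hw
          exact key i hi v hv w hw
        · have hja : j ≠ a := fun h => ha (h ▸ hj)
          rw [Function.update_of_ne hja] at hw
          exact h2 i hi j hj hij v hv w hw

/-- A rich vertex is the centre of a copy of `F₀`. -/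
theorem rich_F0 (G : SimpleGraph V) [DecidableRel G.Adj] {r d s : ℕ} (hds : d + 1 ≤ s)
    (c : V) (N : Fin (r + 1) → Finset V) (μ : ℕ)
    (hmiss : ∀ i j, i ≠ j → ∀ v ∈ N i, #{w ∈ N j | ¬ G.Adj v w} ≤ μ)
    (hc : ∀ i, ∀ v ∈ N i, G.Adj c v) (hN : ∀ i, (r + 1) * s * μ + s ≤ #(N i)) :
    ∃ f : Copy (F0 r d s) G, ∀ x, f x = c ∨ ∃ i, f x ∈ N i := by
  obtain ⟨T, h1, h2⟩ := greedy G N s μ ((r + 1) * s * μ + s) hmiss univ (by simp)
    (fun i _ => hN i)
  obtain ⟨f, hf⟩ := F0_copy' G (r := r) (d := d) (s := s) c (T 0) (fun j => T j.succ)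
    (by rw [(h1 0 (mem_univ _)).2]; exact hds)
    (fun j => by rw [(h1 j.succ (mem_univ _)).2])
    (fun v hv => hc 0 v ((h1 0 (mem_univ _)).1 hv))
    (fun j v hv => hc _ v ((h1 _ (mem_univ _)).1 hv))
    (fun j v hv w hw => h2 0 (mem_univ _) j.succ (mem_univ _) (Fin.succ_ne_zero j).symm v hv w hw)
    (fun i j hij v hv w hw => h2 i.succ (mem_univ _) j.succ (mem_univ _)
      (fun h => hij (Fin.succ_injective _ h)) v hv w hw)
  refine ⟨f, fun x => ?_⟩
  rcases hf x with h | h | ⟨j, h⟩
  · exact Or.inl h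
  · exact Or.inr ⟨0, (h1 0 (mem_univ _)).1 h⟩
  · exact Or.inr ⟨j.succ, (h1 _ (mem_univ _)).1 h⟩

end H422CE
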