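import Pool.Agent.H422R3.CECaseII

/-! Graphs containing `F₀` but not `F`. -/

open SimpleGraph Finset

namespace H422CE

variable {V : Type*} [DecidableEq V] [Fintype V]

/-- deleting a bounded set from a graph without cliques outside it gives an `(r+1)`-partite graph -/
theorem partite_off (G : SimpleGraph V) [DecidableRel G.Adj] {r n y0 : ℕ} (hr : 1 ≤ r)
    (hn : Fintype.card V = n)
    (hdeg : ∀ v, r * n ≤ (r + 1) * G.degree v + (r + 1))
    (Y : Finset V) (hYc : #Y ≤ y0)
    (hY : ∀ C : Finset V, G.IsNClique (r + 2) C → ¬ Disjoint C Y)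
    (hbig : (3 * r + 2) * ((r + 1) * (1 + y0)) < n) :
    ∃ c : V → Fin (r + 1), ∀ v w, v ∉ Y → w ∉ Y → G.Adj v w → c v ≠ c w := by
  classical
  let H := G.induce {v | v ∉ Y}
  have hcf : H.CliqueFree (r + 1 + 1) := by
    intro t ht
    apply hY (t.map (Function.Embedding.subtype _))
    · constructor
      · intro a ha b hb hab
        rw [mem_coe, mem_map] at ha hb
        obtain ⟨a', ha', rfl⟩ := ha
        obtain ⟨b', hb', rfl⟩ := hb
        have hne : a' ≠ b' := fun h => hab (by rw [h])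
        exact ht.isClique ha' hb' hne
      · rw [card_map]; exact ht.card_eq
    · rw [Finset.disjoint_left]
      intro a ha haY
      rw [mem_map] at ha
      obtain ⟨a', ha', rfl⟩ := ha
      exact a'.2 haY
  have hdegH : ∀ v : {v // v ∈ ({v | v ∉ Y} : Set V)}, G.degree v.1 ≤ H.degree v + #Y := by
    intro v
    rw [← card_neighborFinset_eq_degree, ← card_neighborFinset_eq_degree]
    have : G.neighborFinset v.1 ⊆ (H.neighborFinset v).map (Function.Embedding.subtype _) ∪ Y := by
      intro w hw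
      rw [mem_neighborFinset] at hw
      rw [mem_union, mem_map]
      by_cases h : w ∈ Y
      · exact Or.inr h
      · refine Or.inl ⟨⟨w, h⟩, ?_, rfl⟩
        rw [mem_neighborFinset]
        exact hw
    calc _ ≤ _ := card_le_card this
      _ ≤ _ := card_union_le _ _
      _ = _ := by rw [card_map]
  have hne : Nonempty {v // v ∈ ({v | v ∉ Y} : Set V)} := by
    by_contra hcon
    rw [not_nonempty_iff] at hcon
    have h1 : (univ : Finset V) ⊆ Y := by
      intro v _
      by_contra hv
      exact hcon.false ⟨v, hv⟩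
    have h2 := card_le_card h1
    rw [card_univ, hn] at h2
    have h3 : 1 + y0 ≤ (3 * r + 2) * ((r + 1) * (1 + y0)) :=
      (Nat.le_mul_of_pos_left _ (by omega : 0 < r + 1)).trans
        (Nat.le_mul_of_pos_left _ (by omega : 0 < 3 * r + 2))
    omega
  have hcardle : Fintype.card {v // v ∈ ({v | v ∉ Y} : Set V)} ≤ n := by
    rw [← hn]; exact Fintype.card_subtype_le _
  have hmin : (3 * (r + 1) - 4) * Fintype.card {v // v ∈ ({v | v ∉ Y} : Set V)} / (3 * (r + 1) - 1)
      < H.minDegree := by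
    obtain ⟨v, hv⟩ := H.exists_minimal_degree_vertex
    rw [hv, Nat.div_lt_iff_lt_mul (by omega)]
    have h1 := hdegH v
    have h2 := hdeg v.1
    have e1 : 3 * (r + 1) - 4 = 3 * r - 1 := by omega
    have e2 : 3 * (r + 1) - 1 = 3 * r + 2 := by omega
    rw [e1, e2]
    have h3 : (r + 1) * ((3 * r - 1) * Fintype.card {v // v ∈ ({v | v ∉ Y} : Set V)})
        < (r + 1) * (H.degree v * (3 * r + 2)) := by
      have h4 : (r + 1) * ((3 * r - 1) * Fintype.card {v // v ∈ ({v | v ∉ Y} : Set V)})
          ≤ (r + 1) * ((3 * r - 1) * n) :=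
        Nat.mul_le_mul_left _ (Nat.mul_le_mul_left _ hcardle)
      refine lt_of_le_of_lt h4 ?_
      obtain ⟨r', rfl⟩ : ∃ r', r = r' + 1 := ⟨r - 1, by omega⟩
      have e3 : 3 * (r' + 1) - 1 = 3 * r' + 2 := by omega
      rw [e3]
      have h5 : (r' + 1) * n ≤ (r' + 1 + 1) * H.degree v + (r' + 1 + 1) * (1 + y0) := by nlinarith
      nlinarith
    exact lt_of_mul_lt_mul_left h3 (by omega)
  obtain ⟨col⟩ := colorable_of_cliqueFree_lt_minDegree hcf hmin
  refine ⟨fun v => if h : v ∉ Y then col ⟨v, h⟩ else 0, ?_⟩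
  intro v w hv hw hvw
  simp only [hv, hw, not_false_eq_true, dite_true]
  exact col.valid (v := ⟨v, hv⟩) (w := ⟨w, hw⟩) hvw

theorem caseI_core (G : SimpleGraph V) [DecidableRel G.Adj] {r q d s n c0 y0 μ R : ℕ}
    (hr : 1 ≤ r) (hds : d + 1 ≤ s) (hn : Fintype.card V = n)
    (hdeg : ∀ v, r * n ≤ (r + 1) * G.degree v + (r + 1))
    (hF : (FF r q d s).Free G) (f : Copy (F0 r d s) G)
    (hc0 : c0 = Fintype.card (Σ i : Fin (r + 2), Fin (sz r d s i)))
    (hy0 : y0 = c0 + q * (r + 2)) (hμ : μ = y0 + (r + 1))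
    (hR : R = (r + 1) * s * μ + s + y0)
    (hbig : (3 * r + 2) * ((r + 1) * (1 + y0)) < n) :
    (r + 1) * ∑ v, G.degree v ≤ r * n ^ 2 + 2 * q * n
      + (r * y0 ^ 2 + 2 * y0 * ((r + 1) * (R + y0 + r))) := by
  have himg : ∀ g : Copy (F0 r d s) G, #(univ.image g) ≤ c0 := by
    intro g
    rw [hc0]
    exact card_image_le
  rcases dichotomy G (r + 2) q (univ.image f) with hcl | ⟨Y, hXY, hYc, hY⟩
  · exact absurd (FF_contained G f _ (fun x => mem_image_of_mem _ (mem_univ x)) hcl) hF
  replace hYc : #Y ≤ y0 := by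
    have := himg f; omega
  obtain ⟨c, hcol⟩ := partite_off G hr hn hdeg Y hYc hY hbig
  let V' : Fin (r + 1) → Finset V := fun i => {v | v ∉ Y ∧ c v = i}
  have hV' : ∀ i v, v ∈ V' i ↔ v ∉ Y ∧ c v = i := by intro i v; simp [V']
  have hdisj : ∀ i j, i ≠ j → Disjoint (V' i) (V' j) := by
    intro i j hij
    rw [Finset.disjoint_left]
    intro v hv hv'
    rw [hV'] at hv hv'
    exact hij (hv.2.symm.trans hv'.2)
  have hin : ∀ i v, v ∈ V' i → #{w ∈ V' i | ¬ G.Adj v w} = #(V' i) := by
    intro i v hv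
    congr 1
    rw [filter_eq_self]
    intro w hw hadj
    rw [hV'] at hv hw
    exact hcol v w hv.1 hw.1 hadj (hv.2.trans hw.2.symm)
  -- (1)
  have st1 : ∀ i, (r + 1) * #(V' i) ≤ n + (r + 1) := by
    intro i
    rcases (V' i).eq_empty_or_nonempty with he | ⟨v, hv⟩
    · rw [he]; simp
    · have h1 := two_sets G v (V' i)
      rw [hin i v hv, hn] at h1
      have h2 := hdeg v
      have h3 : (r + 1) * (G.degree v + #(V' i)) ≤ (r + 1) * n := Nat.mul_le_mul_left _ h1
      nlinarith
  -- (2)
  have st2 : ∀ i, n ≤ (r + 1) * #(V' i) + (r + 1) * (y0 + r) := by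
    intro i
    have h1 : n ≤ y0 + ∑ j, #(V' j) := by
      have : (univ : Finset V) ⊆ Y ∪ univ.biUnion V' := by
        intro v _
        rw [mem_union, mem_biUnion]
        by_cases h : v ∈ Y
        · exact Or.inl h
        · exact Or.inr ⟨c v, mem_univ _, (hV' _ v).2 ⟨h, rfl⟩⟩
      calc n = #(univ : Finset V) := by rw [card_univ, hn]
        _ ≤ _ := card_le_card this
        _ ≤ _ := card_union_le _ _
        _ ≤ _ := Nat.add_le_add hYc card_biUnion_le
    have h2 : ∑ j, #(V' j) = #(V' i) + ∑ j ∈ univ.erase i, #(V' j) :=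
      (add_sum_erase univ (fun j => #(V' j)) (mem_univ i)).symm
    have h3 : (r + 1) * ∑ j ∈ univ.erase i, #(V' j) ≤ r * (n + (r + 1)) := by
      rw [mul_sum]
      calc _ ≤ ∑ j ∈ univ.erase i, (n + (r + 1)) :=
            Finset.sum_le_sum fun j _ => st1 j
        _ = _ := by
            rw [sum_const, card_erase_of_mem (mem_univ _)]; simp
    have h4 : (r + 1) * n ≤ (r + 1) * (y0 + (#(V' i) + ∑ j ∈ univ.erase i, #(V' j))) := by
      rw [← h2]; exact Nat.mul_le_mul_left _ h1
    nlinarith
  -- (3)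
  have st3 : ∀ i v, v ∈ V' i → ∀ j, j ≠ i → #{w ∈ V' j | ¬ G.Adj v w} ≤ μ := by
    intro i v hv j hji
    have h1 := three_sets G v (V' j) (V' i) (hdisj j i hji)
    rw [hin i v hv, hn] at h1
    have h4 := hdeg v
    have h5 := st2 i
    set x := #{w ∈ V' j | ¬ G.Adj v w}
    have h7 : (r + 1) * (G.degree v + x + #(V' i)) ≤ (r + 1) * n := Nat.mul_le_mul_left _ h1
    have h8 : (r + 1) * x ≤ (r + 1) * μ := by rw [hμ]; nlinarith
    exact Nat.le_of_mul_le_mul_left h8 (Nat.succ_pos r)
  let Rich : Finset V := {y ∈ Y | ∀ i, R ≤ #{w ∈ V' i | G.Adj y w}}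
  have hRich : ∀ y, y ∈ Rich ↔ y ∈ Y ∧ ∀ i, R ≤ #{w ∈ V' i | G.Adj y w} := by
    intro y; simp [Rich]
  -- disjoint cliques through rich vertices
  have cliques : ∀ (k : ℕ) (A : Finset V), A ⊆ Rich → #A = k → ∀ Z : Finset V,
      (∀ a ∈ A, a ∉ Z) → #Z + k * (r + 2) ≤ y0 → HasCl G (r + 2) k Z := by
    intro k
    induction k with
    | zero => intro A _ _ Z _ _; exact HasCl.zero _ _ _
    | succ k ih =>
      intro A hA hAc Z hZ hZc
      obtain ⟨a, ha⟩ : A.Nonempty := by
        rw [← card_pos, hAc]; omega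
      have haR := (hRich a).1 (hA ha)
      obtain ⟨T, hT1, hT2⟩ := greedy G (fun i => {w ∈ V' i | G.Adj a w} \ Z) 1 μ
        ((r + 1) * 1 * μ + 1) (by
          intro i j hij x hx
          refine le_trans (card_le_card ?_)
            (st3 i x (mem_filter.1 (mem_sdiff.1 hx).1).1 j hij.symm)
          intro w hw
          rw [mem_filter] at hw ⊢
          exact ⟨(mem_filter.1 (mem_sdiff.1 hw.1).1).1, hw.2⟩) univ (by simp) (by
          intro i _
          have h1 := haR.2 i
          have h2 := le_card_sdiff Z {w ∈ V' i | G.Adj a w}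
          have h3 : (r + 1) * 1 * μ ≤ (r + 1) * s * μ := by
            apply Nat.mul_le_mul_right; apply Nat.mul_le_mul_left; omega
          omega)
      have hTsub : ∀ i x, x ∈ T i → x ∈ V' i ∧ G.Adj a x ∧ x ∉ Z := by
        intro i x hx
        have := mem_sdiff.1 ((hT1 i (mem_univ _)).1 hx)
        exact ⟨(mem_filter.1 this.1).1, (mem_filter.1 this.1).2, this.2⟩
      have hC : G.IsNClique (r + 2) (insert a (univ.biUnion T)) := by
        constructor
        · have key : ∀ x ∈ univ.biUnion T, ∀ y ∈ univ.biUnion T, x ≠ y → G.Adj x y := by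
            intro x hx y hy hxy
            rw [mem_biUnion] at hx hy
            obtain ⟨i, -, hx⟩ := hx
            obtain ⟨j, -, hy⟩ := hy
            by_cases hij : i = j
            · subst hij
              exact absurd (card_le_one.1 (hT1 i (mem_univ _)).2.le x hx y hy) hxy
            · exact hT2 i (mem_univ _) j (mem_univ _) hij x hx y hy
          intro x hx y hy hxy
          rw [mem_coe, mem_insert] at hx hy
          rcases hx with rfl | hx
          · rcases hy with rfl | hy
            · exact absurd rfl hxy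
            · obtain ⟨i, -, hy⟩ := mem_biUnion.1 hy
              exact (hTsub i y hy).2.1
          · rcases hy with rfl | hy
            · obtain ⟨i, -, hx⟩ := mem_biUnion.1 hx
              exact (hTsub i x hx).2.1.symm
            · exact key x hx y hy hxy
        · rw [card_insert_of_notMem, card_biUnion]
          · simp [(hT1 _ (mem_univ _)).2]
          · intro i _ j _ hij
            rw [Function.onFun] 
            rw [Finset.disjoint_left]
            intro x hx hx'
            exact Finset.disjoint_left.1 (hdisj i j hij) (hTsub i x hx).1 (hTsub j x hx').1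
          · intro h
            obtain ⟨i, -, h⟩ := mem_biUnion.1 h
            exact ((hV' i a).1 (hTsub i a h).1).1 haR.1
      apply HasCl.succ hC
      · rw [Finset.disjoint_left]
        intro x hx
        rcases mem_insert.1 hx with rfl | hx
        · exact hZ x ha
        · obtain ⟨i, -, hx⟩ := mem_biUnion.1 hx
          exact (hTsub i x hx).2.2
      · apply ih (A.erase a) ((erase_subset _ _).trans hA) (by rw [card_erase_of_mem ha, hAc]; rfl)
        · intro a' ha'
          have h1 := mem_erase.1 ha'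
          rw [mem_union]
          rintro (h | h)
          · exact hZ a' h1.2 h
          · rcases mem_insert.1 h with h | h
            · exact h1.1 h
            · obtain ⟨i, -, h⟩ := mem_biUnion.1 h
              exact ((hV' i a').1 (hTsub i a' h).1).1 ((hRich a').1 (hA h1.2)).1
        · have h1 := card_union_le Z (insert a (univ.biUnion T))
          rw [hC.card_eq] at h1
          have h2 : (k + 1) * (r + 2) = k * (r + 2) + (r + 2) := by ring
          omega
  -- at most q rich vertices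
  have hRq : #Rich ≤ q := by
    by_contra hcon
    push Not at hcon
    obtain ⟨y, hy⟩ : Rich.Nonempty := by rw [← card_pos]; omega
    have hyR := (hRich y).1 hy
    obtain ⟨f', hf'⟩ := rich_F0 G (r := r) (d := d) (s := s) hds y
      (fun i => {w ∈ V' i | G.Adj y w}) μ
      (by
        intro i j hij x hx
        refine le_trans (card_le_card ?_) (st3 i x (mem_filter.1 hx).1 j hij.symm)
        intro w hw
        rw [mem_filter] at hw ⊢
        exact ⟨(mem_filter.1 hw.1).1, hw.2⟩)
      (fun i w hw => (mem_filter.1 hw).2)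
      (fun i => by have := hyR.2 i; omega)
    obtain ⟨A, hA, hAc⟩ := exists_subset_card_eq (show q ≤ #(Rich.erase y) by
      rw [card_erase_of_mem hy]; omega)
    have h1 := cliques q A (hA.trans (erase_subset _ _)) hAc (univ.image f') (by
      intro a ha h
      obtain ⟨x, -, hx⟩ := mem_image.1 h
      have h2 := mem_erase.1 (hA ha)
      rcases hf' x with h3 | ⟨i, h3⟩
      · exact h2.1 (hx.symm.trans h3)
      · rw [hx] at h3
        exact ((hV' i a).1 (mem_filter.1 h3).1).1 ((hRich a).1 h2.2).1) (by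
      have := himg f'; omega)
    exact hF (FF_contained G f' _ (fun x => mem_image_of_mem _ (mem_univ x)) h1)
  -- (5)
  obtain ⟨K1, hK1⟩ : ∃ K1, K1 = (r + 1) * (R + y0 + r) := ⟨_, rfl⟩
  rw [← hK1]
  have st5 : (r + 1) * ∑ y ∈ Y, G.degree y ≤ #Y * (r * n + K1) + q * n := by
    have h1 : ∀ y ∈ Y, (r + 1) * G.degree y ≤ (r * n + K1) + (if y ∈ Rich then n else 0) := by
      intro y hy
      split_ifs with h
      · have h2 : G.degree y ≤ n := by
          rw [← hn, ← card_neighborFinset_eq_degree]; exact card_le_univ _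
        nlinarith
      · rw [hRich] at h
        push Not at h
        obtain ⟨i, hi⟩ := h hy
        have h2 := two_sets G y (V' i)
        have h3 := adj_notadj G y (V' i)
        have h4 := st2 i
        have h5 : G.degree y + #(V' i) ≤ n + R := by omega
        have h6 : (r + 1) * (G.degree y + #(V' i)) ≤ (r + 1) * (n + R) := Nat.mul_le_mul_left _ h5
        rw [hK1]
        nlinarith
    rw [mul_sum]
    calc _ ≤ ∑ y ∈ Y, ((r * n + K1) + (if y ∈ Rich then n else 0)) := Finset.sum_le_sum h1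
      _ = #Y * (r * n + K1) + #Rich * n := by
          rw [sum_add_distrib, sum_const, smul_eq_mul, ← sum_filter, sum_const, smul_eq_mul]
          congr 3
          ext y
          rw [mem_filter]
          exact ⟨fun h => h.2, fun h => ⟨((hRich y).1 h).1, h⟩⟩
      _ ≤ _ := by
          apply Nat.add_le_add_left
          exact Nat.mul_le_mul_right _ hRq
  -- (6)
  have hsplit : ∑ v, G.degree v = ∑ v ∈ Y, G.degree v + ∑ v ∈ Yᶜ, G.degree v :=
    (Finset.sum_add_sum_compl Y _).symm
  have st6 : ∑ v ∈ Yᶜ, G.degree v + ∑ v ∈ Yᶜ, #{w ∈ Yᶜ | c w = c v}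
      ≤ ∑ y ∈ Y, G.degree y + #Yᶜ * #Yᶜ := by
    have h1 : ∀ v ∈ Yᶜ, G.degree v + #{w ∈ Yᶜ | c w = c v} ≤ #{w ∈ Y | G.Adj v w} + #Yᶜ := by
      intro v hv
      have h2 : G.degree v = #{w ∈ Y | G.Adj v w} + #{w ∈ Yᶜ | G.Adj v w} := by
        rw [← card_neighborFinset_eq_degree, ← card_union_of_disjoint]
        · congr 1
          ext w
          simp only [mem_neighborFinset, mem_union, mem_filter, mem_compl]
          tauto
        · exact disjoint_filter_filter disjoint_compl_right
      have h3 : #{w ∈ Yᶜ | G.Adj v w} + #{w ∈ Yᶜ | c w = c v} ≤ #Yᶜ := by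
        rw [← card_union_of_disjoint]
        · apply card_le_card
          apply union_subset <;> exact filter_subset _ _
        · rw [Finset.disjoint_left]
          intro w hw hw'
          rw [mem_filter, mem_compl] at hw hw'
          rw [mem_compl] at hv
          exact hcol v w hv hw.1 hw.2 hw'.2.symm
      omega
    have h4 : ∑ v ∈ Yᶜ, #{w ∈ Y | G.Adj v w} ≤ ∑ y ∈ Y, G.degree y := by
      simp_rw [card_filter]
      rw [sum_comm]
      apply Finset.sum_le_sum
      intro y _
      rw [← card_filter, ← card_neighborFinset_eq_degree]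
      apply card_le_card
      intro w hw
      rw [mem_filter] at hw
      rw [mem_neighborFinset]
      exact hw.2.symm
    calc _ = ∑ v ∈ Yᶜ, (G.degree v + #{w ∈ Yᶜ | c w = c v}) := by rw [sum_add_distrib]
      _ ≤ ∑ v ∈ Yᶜ, (#{w ∈ Y | G.Adj v w} + #Yᶜ) := Finset.sum_le_sum h1
      _ = ∑ v ∈ Yᶜ, #{w ∈ Y | G.Adj v w} + #Yᶜ * #Yᶜ := by
          rw [sum_add_distrib, sum_const, smul_eq_mul]
      _ ≤ _ := Nat.add_le_add_right h4 _
  have st7 := partition_sq (Yᶜ) c
  have hcc : #Y + #Yᶜ = n := by rw [card_add_card_compl, hn]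
  rw [hsplit]
  obtain ⟨SY, hSY⟩ : ∃ x, x = ∑ y ∈ Y, G.degree y := ⟨_, rfl⟩
  obtain ⟨SC, hSC⟩ : ∃ x, x = ∑ y ∈ Yᶜ, G.degree y := ⟨_, rfl⟩
  obtain ⟨P, hP⟩ : ∃ x, x = ∑ v ∈ Yᶜ, #{w ∈ Yᶜ | c w = c v} := ⟨_, rfl⟩
  rw [← hSY] at st5 st6 ⊢
  rw [← hSC] at st6 ⊢
  rw [← hP] at st6 st7
  obtain ⟨y, hy⟩ : ∃ x, x = #Y := ⟨_, rfl⟩
  obtain ⟨z, hz⟩ : ∃ x, x = #Yᶜ := ⟨_, rfl⟩
  rw [← hy] at hcc st5 hYc
  rw [← hz] at hcc st6 st7
  subst hcc
  have h8 : (r + 1) * (SC + P) ≤ (r + 1) * (SY + z * z) := Nat.mul_le_mul_left _ st6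
  have h9 : (r + 1) * SC ≤ (r + 1) * SY + r * (z * z) := by nlinarith
  have h10 : (r + 1) * (SY + SC) ≤ 2 * (y * (r * (y + z) + K1) + q * (y + z)) + r * (z * z) := by
    nlinarith
  have h11 : y ^ 2 ≤ y0 ^ 2 := Nat.pow_le_pow_left hYc 2
  have h12 : y * K1 ≤ y0 * K1 := Nat.mul_le_mul_right _ hYc
  have h13 : r * y ^ 2 ≤ r * y0 ^ 2 := Nat.mul_le_mul_left _ h11
  nlinarith

end H422CE
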