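import Pool.Agent.H422R3.CEBase

/-! Structure of `F₀`-free graphs with large minimum degree. -/

open SimpleGraph Finset

namespace H422CE

variable {V : Type*} [DecidableEq V]

/-- Cauchy–Schwarz for a partition. -/
theorem partition_sq (A : Finset V) {m : ℕ} (c : V → Fin m) :
    (#A) ^ 2 ≤ m * ∑ v ∈ A, #{w ∈ A | c w = c v} := by
  have h1 : ∑ v ∈ A, #{w ∈ A | c w = c v} = ∑ i : Fin m, (#{v ∈ A | c v = i}) ^ 2 := by
    rw [← Finset.sum_fiberwise_of_maps_to (s := A) (t := univ) (g := c) (fun _ _ => mem_univ _)]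
    apply Finset.sum_congr rfl
    intro i _
    rw [Finset.sum_congr rfl (g := fun _ => #{v ∈ A | c v = i})]
    · rw [sum_const, smul_eq_mul, sq]
    · intro v hv
      rw [(mem_filter.1 hv).2]
  have h2 : #A = ∑ i : Fin m, #{v ∈ A | c v = i} :=
    Finset.card_eq_sum_card_fiberwise (fun _ _ => mem_univ _)
  rw [h1]
  conv_lhs => rw [h2]
  have := sq_sum_le_card_mul_sum_sq (s := (univ : Finset (Fin m)))
    (f := fun i => #{v ∈ A | c v = i})
  simpa using this

variable (G : SimpleGraph V) [DecidableRel G.Adj]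

theorem common_nbrs (X A C : Finset V) (μ : ℕ)
    (h : ∀ x ∈ X, #{w ∈ A | ¬ G.Adj x w} ≤ μ)
    (hC : ∀ w ∈ A, (∀ x ∈ X, G.Adj x w) → w ∈ C) :
    #A ≤ #C + #X * μ := by
  have h1 : A ⊆ C ∪ X.biUnion fun x => {w ∈ A | ¬ G.Adj x w} := by
    intro w hw
    rw [mem_union, mem_biUnion]
    by_cases h : ∀ x ∈ X, G.Adj x w
    · exact Or.inl (hC w hw h)
    · push Not at h
      obtain ⟨x, hx, hxw⟩ := h
      exact Or.inr ⟨x, hx, mem_filter.2 ⟨hw, hxw⟩⟩
  calc #A ≤ _ := card_le_card h1
    _ ≤ _ := card_union_le _ _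
    _ ≤ _ := by
        apply Nat.add_le_add_left
        calc _ ≤ ∑ x ∈ X, #{w ∈ A | ¬ G.Adj x w} := card_biUnion_le
          _ ≤ ∑ x ∈ X, μ := Finset.sum_le_sum h
          _ = #X * μ := by rw [sum_const, smul_eq_mul]

theorem three_sets [Fintype V] (v : V) (A B : Finset V) (hAB : Disjoint A B) :
    G.degree v + #{w ∈ A | ¬ G.Adj v w} + #{w ∈ B | ¬ G.Adj v w} ≤ Fintype.card V := by
  rw [← card_neighborFinset_eq_degree, ← card_union_of_disjoint, ← card_union_of_disjoint]
  · exact card_le_univ _
  · rw [disjoint_union_left]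
    constructor
    · rw [Finset.disjoint_left]
      intro w hw hw'
      rw [mem_neighborFinset] at hw
      exact (mem_filter.1 hw').2 hw
    · exact disjoint_filter_filter hAB
  · rw [Finset.disjoint_left]
    intro w hw hw'
    rw [mem_neighborFinset] at hw
    exact (mem_filter.1 hw').2 hw

theorem two_sets [Fintype V] (v : V) (A : Finset V) :
    G.degree v + #{w ∈ A | ¬ G.Adj v w} ≤ Fintype.card V := by
  have := three_sets G v A ∅ (disjoint_empty_right _)
  simpa using this

omit [DecidableEq V] in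
theorem adj_notadj (v : V) (A : Finset V) :
    #{w ∈ A | G.Adj v w} + #{w ∈ A | ¬ G.Adj v w} = #A :=
  Finset.card_filter_add_card_filter_not _

theorem caseII_core [Fintype V] {r d s L l n : ℕ} (hr : 1 ≤ r) (hds : d + 1 ≤ s)
    (hn : Fintype.card V = n)
    (hdeg : ∀ v, r * n ≤ (r + 1) * G.degree v + (r + 1))
    (hF : (F0 r d s).Free G)
    (u : Copy (completeEquipartiteGraph (r + 1) L) G)
    (hL : (d + 2) * (s + l) + 2 * s ≤ L)
    (hbig : ∀ b μ R, b * l ≤ s * n + (r + 1) * L → μ = b + (r + 1) * (d + 1) →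
      R = (r + 1) * s * μ + s →
      (r + 1) * ((d + 2) * (μ + R) + R + b + r * (d + 1)) ≤ n) :
    ∃ c : V → Fin (r + 1), ∀ v, #{w | G.Adj v w ∧ c w = c v} ≤ d := by
  let U : Fin (r + 1) → Finset V := fun i => univ.image fun x => u (i, x)
  have hUc : ∀ i, #(U i) = L := by
    intro i
    simp only [U]
    rw [card_image_of_injective, card_univ, Fintype.card_fin]
    intro x y hxy
    have := u.injective hxy
    simpa using this
  have hUadj : ∀ i j, i ≠ j → ∀ v ∈ U i, ∀ w ∈ U j, G.Adj v w := by
    intro i j hij v hv w hw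
    simp only [U, mem_image, mem_univ, true_and] at hv hw
    obtain ⟨x, rfl⟩ := hv
    obtain ⟨y, rfl⟩ := hw
    exact u.toHom.map_adj (by simpa using hij)
  let a : Fin (r + 1) → V → ℕ := fun i v => #{w ∈ U i | G.Adj v w}
  have haL : ∀ i v, a i v ≤ L := by
    intro i v
    rw [← hUc i]
    exact card_filter_le _ _
  -- Step 1
  have step1 : ∀ v, ∃ i, a i v < s := by
    intro v
    by_contra hcon
    push Not at hcon
    obtain ⟨f, -⟩ := F0_copy' G (r := r) (d := d) (s := s) v {w ∈ U 0 | G.Adj v w}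
      (fun j => {w ∈ U j.succ | G.Adj v w})
      (hds.trans (hcon 0)) (fun j => hcon j.succ)
      (fun w hw => (mem_filter.1 hw).2) (fun j w hw => (mem_filter.1 hw).2)
      (fun j x hx y hy => hUadj 0 j.succ (Fin.succ_ne_zero j).symm x (mem_filter.1 hx).1 y
        (mem_filter.1 hy).1)
      (fun i j hij x hx y hy => hUadj i.succ j.succ (fun h => hij (Fin.succ_injective _ h)) x
        (mem_filter.1 hx).1 y (mem_filter.1 hy).1)
    exact hF ⟨f⟩
  let K : V → ℕ := fun v => ∑ i, a i v
  -- Step 2
  have step2 : ∀ v, K v ≤ r * L + s := by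
    intro v
    obtain ⟨i, hi⟩ := step1 v
    have h1 : K v = a i v + ∑ j ∈ univ.erase i, a j v :=
      (add_sum_erase univ (fun j => a j v) (mem_univ i)).symm
    have h2 : ∑ j ∈ univ.erase i, a j v ≤ r * L := by
      calc _ ≤ ∑ j ∈ univ.erase i, L := Finset.sum_le_sum fun j _ => haL j v
        _ = r * L := by rw [sum_const, card_erase_of_mem (mem_univ _)]; simp
    omega
  -- Step 3
  have step3 : L * (r * n) ≤ (∑ v, K v) + (r + 1) * L := by
    have h1 : ∑ v, K v = ∑ i, ∑ x ∈ U i, G.degree x := by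
      simp only [K, a]
      rw [sum_comm]
      apply Finset.sum_congr rfl
      intro i _
      simp_rw [card_filter]
      rw [sum_comm]
      apply Finset.sum_congr rfl
      intro x _
      rw [← card_filter, ← card_neighborFinset_eq_degree]
      congr 1
      ext w
      simp [G.adj_comm]
    have h2 : (r + 1) * (L * (r * n)) ≤ (r + 1) * (∑ v, K v) + (r + 1) * ((r + 1) * L) := by
      rw [h1]
      calc (r + 1) * (L * (r * n)) = ∑ i : Fin (r + 1), ∑ x ∈ U i, (r * n) := by
            simp [hUc]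
        _ ≤ ∑ i : Fin (r + 1), ∑ x ∈ U i, ((r + 1) * G.degree x + (r + 1)) := by
            apply Finset.sum_le_sum; intro i _
            apply Finset.sum_le_sum; intro x _
            exact hdeg x
        _ = (r + 1) * (∑ i, ∑ x ∈ U i, G.degree x) + (r + 1) * ((r + 1) * L) := by
            simp only [sum_add_distrib, mul_sum, sum_const, hUc, smul_eq_mul, card_univ,
              Fintype.card_fin]
            ring
    have h3 : (r + 1) * (L * (r * n)) ≤ (r + 1) * ((∑ v, K v) + (r + 1) * L) := by
      rw [mul_add]; exact h2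
    exact Nat.le_of_mul_le_mul_left h3 (Nat.succ_pos r)
  -- Step 4
  let B : Finset V := {v | K v + l < r * L}
  have step4 : #B * l ≤ s * n + (r + 1) * L := by
    have h1 : (∑ v, K v) + #B * l ≤ n * (r * L + s) := by
      have : ∀ v : V, K v + (if v ∈ B then l else 0) ≤ r * L + s := by
        intro v
        split_ifs with h
        · have : K v + l < r * L := (mem_filter.1 h).2
          omega
        · have := step2 v; omega
      calc (∑ v, K v) + #B * l = ∑ v, (K v + (if v ∈ B then l else 0)) := by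
            rw [sum_add_distrib]
            congr 1
            rw [← sum_filter, sum_const, smul_eq_mul]
            congr 2
            ext v; simp
        _ ≤ ∑ v : V, (r * L + s) := Finset.sum_le_sum fun v _ => this v
        _ = n * (r * L + s) := by rw [sum_const, card_univ, hn, smul_eq_mul]
    have h2 : n * (r * L + s) = L * (r * n) + s * n := by ring
    omega
  set b := #B with hb
  obtain ⟨μ, hμ⟩ : ∃ μ, μ = b + (r + 1) * (d + 1) := ⟨_, rfl⟩
  obtain ⟨R, hR⟩ : ∃ R, R = (r + 1) * s * μ + s := ⟨_, rfl⟩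
  have hbig' := hbig b μ R step4 hμ hR
  -- Step 5
  let V' : Fin (r + 1) → Finset V := fun i => {v | v ∉ B ∧ a i v < s}
  have hV' : ∀ i v, v ∈ V' i ↔ v ∉ B ∧ a i v < s := by intro i v; simp [V']
  have step5 : ∀ i v, v ∈ V' i → ∀ j, j ≠ i → L ≤ a j v + s + l := by
    intro i v hv j hji
    rw [hV'] at hv
    have h1 : r * L ≤ K v + l := by
      have := hv.1
      simp only [B, mem_filter, mem_univ, true_and, not_lt] at this
      exact this
    have h2 : K v = a i v + (a j v + ∑ k ∈ (univ.erase i).erase j, a k v) := by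
      rw [add_sum_erase (univ.erase i) (fun k => a k v) (mem_erase.2 ⟨hji, mem_univ j⟩),
        add_sum_erase univ (fun k => a k v) (mem_univ i)]
    have h3 : ∑ k ∈ (univ.erase i).erase j, a k v ≤ (r - 1) * L := by
      calc _ ≤ ∑ k ∈ (univ.erase i).erase j, L := Finset.sum_le_sum fun k _ => haL k v
        _ = (r - 1) * L := by
            rw [sum_const, card_erase_of_mem (mem_erase.2 ⟨hji, mem_univ j⟩),
              card_erase_of_mem (mem_univ _)]
            simp
    have h4 : r * L = (r - 1) * L + L := by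
      obtain ⟨r', rfl⟩ : ∃ r', r = r' + 1 := ⟨r - 1, by omega⟩
      simp; ring
    omega
  have hdisj : ∀ i j, i ≠ j → Disjoint (V' i) (V' j) := by
    intro i j hij
    rw [Finset.disjoint_left]
    intro v hv hv'
    have h1 := step5 i v hv j hij.symm
    have h2 := ((hV' j v).1 hv').2
    have h3 : s + l ≤ (d + 2) * (s + l) := Nat.le_mul_of_pos_left _ (by omega)
    omega
  have hmissU : ∀ i v, v ∈ V' i → ∀ j, j ≠ i → #{w ∈ U j | ¬ G.Adj v w} ≤ s + l := by
    intro i v hv j hji
    have h1 := step5 i v hv j hji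
    have h2 := adj_notadj G v (U j)
    rw [hUc] at h2
    have h3 : a j v = #{w ∈ U j | G.Adj v w} := rfl
    omega
  -- Step 6
  have step6 : ∀ i v, v ∈ V' i → #{w ∈ V' i | G.Adj v w} ≤ d := by
    intro i v hv
    by_contra hcon
    push Not at hcon
    obtain ⟨D, hD, hDc⟩ := exists_subset_card_eq (show d + 1 ≤ #{w ∈ V' i | G.Adj v w} from hcon)
    have hins : #(insert v D) ≤ d + 2 := by
      have := card_insert_le v D; omega
    have hT : ∀ j : Fin r, s ≤ #{w ∈ U (i.succAbove j) | ∀ x ∈ insert v D, G.Adj x w} := by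
      intro j
      have h1 := common_nbrs G (insert v D) (U (i.succAbove j))
        {w ∈ U (i.succAbove j) | ∀ x ∈ insert v D, G.Adj x w} (s + l) (by
        intro x hx
        rcases mem_insert.1 hx with rfl | hx
        · exact hmissU i x hv _ (Fin.succAbove_ne i j)
        · exact hmissU i x (mem_filter.1 (hD hx)).1 _ (Fin.succAbove_ne i j))
        (fun w hw hw' => mem_filter.2 ⟨hw, hw'⟩)
      rw [hUc] at h1
      have h2 : #(insert v D) * (s + l) ≤ (d + 2) * (s + l) := Nat.mul_le_mul_right _ hins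
      linarith
    obtain ⟨f, -⟩ := F0_copy' G (r := r) (d := d) (s := s) v D
      (fun j => {w ∈ U (i.succAbove j) | ∀ x ∈ insert v D, G.Adj x w})
      (by omega) hT (fun w hw => (mem_filter.1 (hD hw)).2)
      (fun j w hw => (mem_filter.1 hw).2 v (mem_insert_self _ _))
      (fun j x hx y hy => (mem_filter.1 hy).2 x (mem_insert_of_mem hx))
      (fun j k hjk x hx y hy => hUadj _ _ (fun h => hjk (Fin.succAbove_right_injective h)) x
        (mem_filter.1 hx).1 y (mem_filter.1 hy).1)
    exact hF ⟨f⟩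
  -- Step 7
  have step7 : ∀ i, (r + 1) * #(V' i) ≤ n + (r + 1) * (d + 1) := by
    intro i
    rcases (V' i).eq_empty_or_nonempty with he | ⟨v, hv⟩
    · rw [he]; simp
    · have h1 := two_sets G v (V' i)
      have h2 := adj_notadj G v (V' i)
      have h3 := step6 i v hv
      have h4 := hdeg v
      have h5 : G.degree v + #(V' i) ≤ n + d := by omega
      have h6 : (r + 1) * (G.degree v + #(V' i)) ≤ (r + 1) * (n + d) := Nat.mul_le_mul_left _ h5
      nlinarith
  -- Step 8
  have step8 : ∀ i, n ≤ (r + 1) * #(V' i) + (r + 1) * b + (r + 1) * (r * (d + 1)) := by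
    intro i
    have h1 : n ≤ b + ∑ j, #(V' j) := by
      have : (univ : Finset V) ⊆ B ∪ univ.biUnion V' := by
        intro v _
        rw [mem_union, mem_biUnion]
        by_cases h : v ∈ B
        · exact Or.inl h
        · obtain ⟨j, hj⟩ := step1 v
          exact Or.inr ⟨j, mem_univ _, (hV' j v).2 ⟨h, hj⟩⟩
      calc n = #(univ : Finset V) := by rw [card_univ, hn]
        _ ≤ _ := card_le_card this
        _ ≤ _ := card_union_le _ _
        _ ≤ _ := Nat.add_le_add_left card_biUnion_le _
    have h2 : ∑ j, #(V' j) = #(V' i) + ∑ j ∈ univ.erase i, #(V' j) :=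
      (add_sum_erase univ (fun j => #(V' j)) (mem_univ i)).symm
    have h3 : (r + 1) * ∑ j ∈ univ.erase i, #(V' j) ≤ r * (n + (r + 1) * (d + 1)) := by
      rw [mul_sum]
      calc _ ≤ ∑ j ∈ univ.erase i, (n + (r + 1) * (d + 1)) :=
            Finset.sum_le_sum fun j _ => step7 j
        _ = r * (n + (r + 1) * (d + 1)) := by
            rw [sum_const, card_erase_of_mem (mem_univ _)]; simp
    have h4 : (r + 1) * n ≤ (r + 1) * (b + (#(V' i) + ∑ j ∈ univ.erase i, #(V' j))) := by
      rw [← h2]; exact Nat.mul_le_mul_left _ h1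
    nlinarith
  -- Step 9
  have step9 : ∀ i v, v ∈ V' i → ∀ j, j ≠ i → #{w ∈ V' j | ¬ G.Adj v w} ≤ μ := by
    intro i v hv j hji
    have h1 := three_sets G v (V' j) (V' i) (hdisj j i hji)
    have h2 := adj_notadj G v (V' i)
    have h3 := step6 i v hv
    have h4 := hdeg v
    have h5 := step8 i
    set x := #{w ∈ V' j | ¬ G.Adj v w}
    have h6 : G.degree v + x + #(V' i) ≤ n + d := by omega
    have h7 : (r + 1) * (G.degree v + x + #(V' i)) ≤ (r + 1) * (n + d) := Nat.mul_le_mul_left _ h6
    have h8 : (r + 1) * x ≤ (r + 1) * μ := by rw [hμ]; nlinarith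
    exact Nat.le_of_mul_le_mul_left h8 (Nat.succ_pos r)
  -- Step 10
  have step10 : ∀ v, ∃ i, #{w ∈ V' i | G.Adj v w} < R := by
    intro v
    by_contra hcon
    push Not at hcon
    obtain ⟨f, -⟩ := rich_F0 G (r := r) (d := d) (s := s) hds v
      (fun i => {w ∈ V' i | G.Adj v w}) μ
      (by
        intro i j hij x hx
        refine le_trans (card_le_card ?_) (step9 i x (mem_filter.1 hx).1 j hij.symm)
        intro w hw
        rw [mem_filter] at hw ⊢
        exact ⟨(mem_filter.1 hw.1).1, hw.2⟩)
      (fun i w hw => (mem_filter.1 hw).2)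
      (fun i => by rw [← hR]; exact hcon i)
    exact hF ⟨f⟩
  choose c hc using step10
  -- Step 11
  have step11 : ∀ v j, j ≠ c v → #{w ∈ V' j | ¬ G.Adj v w} ≤ μ + R := by
    intro v j hj
    have h1 := three_sets G v (V' j) (V' (c v)) (hdisj j _ hj)
    have h2 := adj_notadj G v (V' (c v))
    have h3 := hc v
    have h4 := hdeg v
    have h5 := step8 (c v)
    set x := #{w ∈ V' j | ¬ G.Adj v w}
    have h6 : G.degree v + x + #(V' (c v)) ≤ n + R := by omega
    have h7 : (r + 1) * (G.degree v + x + #(V' (c v))) ≤ (r + 1) * (n + R) :=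
      Nat.mul_le_mul_left _ h6
    have h8 : (r + 1) * x ≤ (r + 1) * (μ + R) := by rw [hμ]; nlinarith
    exact Nat.le_of_mul_le_mul_left h8 (Nat.succ_pos r)
  refine ⟨c, fun v => ?_⟩
  by_contra hcon
  push Not at hcon
  obtain ⟨D, hD, hDc⟩ := exists_subset_card_eq
    (show d + 1 ≤ #{w | G.Adj v w ∧ c w = c v} from hcon)
  have hDm : ∀ x ∈ D, G.Adj v x ∧ c x = c v := by
    intro x hx
    simpa using hD hx
  have hins : #(insert v D) ≤ d + 2 := by
    have := card_insert_le v D; omega
  let N : Fin r → Finset V := fun j => {w ∈ V' ((c v).succAbove j) | ∀ x ∈ insert v D, G.Adj x w}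
  have hN : ∀ j, R ≤ #(N j) := by
    intro j
    have h1 := common_nbrs G (insert v D) (V' ((c v).succAbove j)) (N j) (μ + R) (by
      intro x hx
      rcases mem_insert.1 hx with rfl | hx
      · exact step11 x _ (Fin.succAbove_ne _ j)
      · apply step11 x _
        rw [(hDm x hx).2]
        exact Fin.succAbove_ne _ j) (fun w hw hw' => mem_filter.2 ⟨hw, hw'⟩)
    have h2 : #(insert v D) * (μ + R) ≤ (d + 2) * (μ + R) := Nat.mul_le_mul_right _ hins
    have h3 := step8 ((c v).succAbove j)
    have h4 : (r + 1) * ((d + 2) * (μ + R) + R) ≤ (r + 1) * #(V' ((c v).succAbove j)) := by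
      have e1 : (r + 1) * ((d + 2) * (μ + R) + R + b + r * (d + 1))
        = (r + 1) * ((d + 2) * (μ + R) + R) + (r + 1) * b + (r + 1) * (r * (d + 1)) := by ring
      omega
    have h5 := Nat.le_of_mul_le_mul_left h4 (Nat.succ_pos r)
    linarith
  obtain ⟨T, hT1, hT2⟩ := greedy G N s μ R (by
      intro i j hij x hx
      refine le_trans (card_le_card ?_)
        (step9 ((c v).succAbove i) x (mem_filter.1 hx).1 ((c v).succAbove j)
          (fun h => hij (Fin.succAbove_right_injective h).symm))
      intro w hw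
      rw [mem_filter] at hw ⊢
      exact ⟨(mem_filter.1 hw.1).1, hw.2⟩) univ (by
        rw [card_univ, Fintype.card_fin, hR]
        have : r * s * μ ≤ (r + 1) * s * μ := by
          apply Nat.mul_le_mul_right; apply Nat.mul_le_mul_right; omega
        omega) (fun i _ => hN i)
  obtain ⟨f, -⟩ := F0_copy' G (r := r) (d := d) (s := s) v D T
      (by omega) (fun j => (hT1 j (mem_univ _)).2.ge) (fun w hw => (hDm w hw).1)
      (fun j w hw => (mem_filter.1 ((hT1 j (mem_univ _)).1 hw)).2 v (mem_insert_self _ _))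
      (fun j x hx y hy => (mem_filter.1 ((hT1 j (mem_univ _)).1 hy)).2 x (mem_insert_of_mem hx))
      (fun j k hjk x hx y hy => hT2 j (mem_univ _) k (mem_univ _) hjk x hx y hy)
  exact hF ⟨f⟩

end H422CE
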