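import Pool.Agent.H422R3.CECaseII

open SimpleGraph Finset

namespace H422CE

theorem caseII_exists {r d s : ℕ} (hr : 1 ≤ r) (hds : d + 1 ≤ s) :
    ∃ N, ∀ n ≥ N, ∀ (G : SimpleGraph (Fin n)) [DecidableRel G.Adj],
      (∀ v, r * n ≤ (r + 1) * G.degree v + (r + 1)) → (F0 r d s).Free G →
      ∃ c : Fin n → Fin (r + 1), ∀ v, #{w | G.Adj v w ∧ c w = c v} ≤ d := by
  obtain ⟨A, hA⟩ : ∃ A, A = (d + 2) * (1 + (r + 1) * s) + (r + 1) * s := ⟨_, rfl⟩
  obtain ⟨K2, hK2⟩ : ∃ K2, K2 = (r + 1) * (A + 1) := ⟨_, rfl⟩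
  obtain ⟨K3, hK3⟩ : ∃ K3, K3 = (r + 1) * ((r + 1) * (d + 1) * A + (d + 3) * s + r * (d + 1)) :=
    ⟨_, rfl⟩
  obtain ⟨l, hl⟩ : ∃ l, l = 2 * s * K2 := ⟨_, rfl⟩
  obtain ⟨L, hL⟩ : ∃ L, L = (d + 2) * (s + l) + 2 * s := ⟨_, rfl⟩
  have hε : (0 : ℝ) < 1 / (2 * r * (r + 1)) := by
    have : (0 : ℝ) < r := by exact_mod_cast hr
    positivity
  have hES := eventually_completeEquipartiteGraph_isContained_of_minDegree hε r L
  rw [Filter.eventually_atTop] at hES
  obtain ⟨N1, hN1⟩ := hES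
  refine ⟨N1 + (r + 1) * L + 2 * K3 + 2 * r * (r + 1) + 1, ?_⟩
  intro n hn G _ hdeg hF
  have hn0 : 0 < n := by omega
  have hmin : (G.minDegree : ℝ) ≥ (1 - 1 / r + 1 / (2 * r * (r + 1))) * n := by
    haveI : Nonempty (Fin n) := ⟨⟨0, hn0⟩⟩
    obtain ⟨v, hv⟩ := G.exists_minimal_degree_vertex
    rw [hv]
    have h1 : (r : ℝ) * n ≤ (r + 1) * G.degree v + (r + 1) := by exact_mod_cast hdeg v
    have h2 : (2 * r * (r + 1) : ℝ) ≤ n := by
      have : 2 * r * (r + 1) ≤ n := by omega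
      exact_mod_cast this
    have hr0 : (0 : ℝ) < r := by exact_mod_cast hr
    have h3 : (1 - 1 / (r : ℝ) + 1 / (2 * r * (r + 1))) * n
        = (r * n) / (r + 1) - n / (2 * r * (r + 1)) := by
      field_simp
      ring
    rw [h3]
    have h4 : (1 : ℝ) ≤ n / (2 * r * (r + 1)) := by
      rw [le_div_iff₀ (by positivity)]; linarith
    have h5 : (r * n : ℝ) / (r + 1) ≤ G.degree v + 1 := by
      rw [div_le_iff₀ (by positivity)]; linarith
    linarith
  obtain ⟨u⟩ := hN1 n (by omega) hmin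
  apply caseII_core G hr hds (Fintype.card_fin n) hdeg hF u (l := l) hL.ge
  intro b μ R hb hμ hR
  have h1 : (r + 1) * ((d + 2) * (μ + R) + R + b + r * (d + 1)) = K2 * b + K3 := by
    rw [hR, hμ, hK2, hK3, hA]; ring
  rw [h1]
  have h2 : s * (2 * (K2 * b)) ≤ s * (n + (r + 1) * L) := by
    calc s * (2 * (K2 * b)) = b * l := by rw [hl]; ring
      _ ≤ s * n + (r + 1) * L := hb
      _ ≤ s * n + s * ((r + 1) * L) := by
          apply Nat.add_le_add_left
          exact Nat.le_mul_of_pos_left _ (by omega)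
      _ = _ := by ring
  have h3 := Nat.le_of_mul_le_mul_left h2 (by omega)
  omega

variable {V : Type*} [DecidableEq V] [Fintype V]

theorem class_bounds (G : SimpleGraph V) [DecidableRel G.Adj] {r d n : ℕ}
    (hn : Fintype.card V = n)
    (hdeg : ∀ v, r * n ≤ (r + 1) * G.degree v + (r + 1))
    (c : V → Fin (r + 1)) (hc : ∀ v, #{w | G.Adj v w ∧ c w = c v} ≤ d) :
    (r + 1) * ∑ v, G.degree v ≤ r * n ^ 2 + (r + 1) * d * n ∧
    ∀ v, (r + 1) * G.degree v ≤ r * n + (r + 1) * (d + r * (d + 1)) := by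
  have h1 : ∀ v, G.degree v + #{w | c w = c v} ≤ n + d := by
    intro v
    have h := two_sets G v {w | c w = c v}
    have h' := adj_notadj G v {w | c w = c v}
    have h'' : #{w ∈ ({w | c w = c v} : Finset V) | G.Adj v w} ≤ d := by
      refine le_trans (card_le_card ?_) (hc v)
      intro w hw
      simp only [mem_filter, mem_univ, true_and] at hw ⊢
      exact ⟨hw.2, hw.1⟩
    omega
  constructor
  · have h2 := partition_sq (univ : Finset V) c
    rw [card_univ, hn] at h2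
    have h3 : ∑ v, (G.degree v + #{w | c w = c v}) ≤ ∑ v : V, (n + d) :=
      Finset.sum_le_sum fun v _ => h1 v
    rw [sum_add_distrib, sum_const, card_univ, hn, smul_eq_mul] at h3
    have h4 : (r + 1) * ((∑ v, G.degree v) + ∑ v, #{w | c w = c v}) ≤ (r + 1) * (n * (n + d)) :=
      Nat.mul_le_mul_left _ h3
    nlinarith
  · have h5 : ∀ i, (r + 1) * #{w | c w = i} ≤ n + (r + 1) * (d + 1) := by
      intro i
      rcases ({w | c w = i} : Finset V).eq_empty_or_nonempty with he | ⟨v, hv⟩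
      · rw [he]; simp
      · have hv' : c v = i := by simpa using hv
        subst hv'
        have h6 := hdeg v
        have h7 : (r + 1) * (G.degree v + #{w | c w = c v}) ≤ (r + 1) * (n + d) :=
          Nat.mul_le_mul_left _ (h1 v)
        nlinarith
    intro v
    have h6 : n = ∑ i, #{w | c w = i} := by
      have := Finset.card_eq_sum_card_fiberwise (s := (univ : Finset V)) (t := univ) (f := c)
        (fun _ _ => mem_univ _)
      rw [card_univ, hn] at this
      exact this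
    have h7 : ∑ i, #{w | c w = i} = #{w | c w = c v} + ∑ i ∈ univ.erase (c v), #{w | c w = i} :=
      (add_sum_erase univ (fun i => #{w | c w = i}) (mem_univ (c v))).symm
    have h8 : (r + 1) * ∑ i ∈ univ.erase (c v), #{w | c w = i} ≤ r * (n + (r + 1) * (d + 1)) := by
      rw [mul_sum]
      calc _ ≤ ∑ i ∈ univ.erase (c v), (n + (r + 1) * (d + 1)) :=
            Finset.sum_le_sum fun i _ => h5 i
        _ = _ := by rw [sum_const, card_erase_of_mem (mem_univ _)]; simp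
    have h9 : (r + 1) * n = (r + 1) * #{w | c w = c v}
        + (r + 1) * ∑ i ∈ univ.erase (c v), #{w | c w = i} := by
      rw [← mul_add, ← h7, ← h6]
    have h10 : (r + 1) * (G.degree v + #{w | c w = c v}) ≤ (r + 1) * (n + d) :=
      Nat.mul_le_mul_left _ (h1 v)
    nlinarith

/-- Sum of squares of degrees in case II. -/
theorem caseII_sq (G : SimpleGraph V) [DecidableRel G.Adj] {r d n : ℕ}
    (hn : Fintype.card V = n)
    (hdeg : ∀ v, r * n ≤ (r + 1) * G.degree v + (r + 1))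
    (c : V → Fin (r + 1)) (hc : ∀ v, #{w | G.Adj v w ∧ c w = c v} ≤ d) :
    (r + 1) ^ 2 * ∑ v, (G.degree v) ^ 2 ≤
      r ^ 2 * n ^ 3 + 2 * r * (r + 1) * d * n ^ 2
        + ((r + 1) * (d + r * (d + 1) + 1)) ^ 2 * n := by
  obtain ⟨h1, h2⟩ := class_bounds G hn hdeg c hc
  obtain ⟨C, hC⟩ : ∃ C, C = (r + 1) * (d + r * (d + 1) + 1) := ⟨_, rfl⟩
  rw [← hC]
  zify at h1 h2 hdeg hC ⊢
  have h3 : ∀ v, ((r + 1 : ℤ) * G.degree v) ^ 2 ≤
      2 * (r * n) * ((r + 1) * G.degree v) - (r * n) ^ 2 + C ^ 2 := by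
    intro v
    have a1 := hdeg v
    have a2 := h2 v
    have a3 : ((r + 1 : ℤ) * G.degree v - r * n) ^ 2 ≤ C ^ 2 := by
      apply sq_le_sq'
      · rw [hC]
        have : (0 : ℤ) ≤ (r + 1) * (d + r * (d + 1)) := by positivity
        nlinarith
      · rw [hC]
        nlinarith
    nlinarith
  have h4 : ∑ v, ((r + 1 : ℤ) * G.degree v) ^ 2 ≤
      ∑ v, (2 * (r * n) * ((r + 1) * G.degree v) - (r * n) ^ 2 + C ^ 2 : ℤ) :=
    Finset.sum_le_sum fun v _ => h3 v
  have h5 : ∑ v, ((r + 1 : ℤ) * G.degree v) ^ 2 = (r + 1) ^ 2 * ∑ v, (G.degree v : ℤ) ^ 2 := by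
    rw [mul_sum]; apply Finset.sum_congr rfl; intro v _; ring
  have h6 : ∑ v, (2 * (r * n) * ((r + 1) * G.degree v) - (r * n) ^ 2 + C ^ 2 : ℤ)
      = 2 * (r * n) * ((r + 1) * ∑ v, (G.degree v : ℤ)) - n * (r * n) ^ 2 + n * C ^ 2 := by
    rw [sum_add_distrib, sum_sub_distrib, sum_const, sum_const, card_univ, hn, mul_sum, mul_sum]
    simp
  rw [h5, h6] at h4
  have h7 : (2 * (r * n) : ℤ) * ((r + 1) * ∑ v, (G.degree v : ℤ))
      ≤ 2 * (r * n) * (r * n ^ 2 + (r + 1) * d * n) :=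
    mul_le_mul_of_nonneg_left h1 (by positivity)
  nlinarith

end H422CE
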