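import Pool.Agent.H422R3.CEBase

/-! The two constructions. -/

open SimpleGraph Finset

namespace H422CE

/-- `q` dominating vertices joined to a balanced complete `p`-partite graph -/
def An (p q n : ℕ) : SimpleGraph (Fin n) where
  Adj v w := v ≠ w ∧ (v.val < q ∨ w.val < q ∨ v.val % p ≠ w.val % p)
  symm := ⟨fun v w h => ⟨h.1.symm, by rcases h.2 with h | h | h
                                      · exact Or.inr (Or.inl h)
                                      · exact Or.inl h
                                      · exact Or.inr (Or.inr h.symm)⟩⟩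
  loopless := ⟨fun _ h => h.1 rfl⟩

/-- balanced complete `p`-partite graph plus `2k`-regular-like graphs in the classes -/
def Bn (p k n : ℕ) : SimpleGraph (Fin n) where
  Adj v w := v ≠ w ∧ (v.val % p ≠ w.val % p ∨ (v.val ≤ w.val + p * k ∧ w.val ≤ v.val + p * k))
  symm := ⟨fun v w h => ⟨h.1.symm, by rcases h.2 with h | h
                                      · exact Or.inl h.symm
                                      · exact Or.inr ⟨h.2, h.1⟩⟩⟩
  loopless := ⟨fun _ h => h.1 rfl⟩

instance (p q n : ℕ) : DecidableRel (An p q n).Adj := fun _ _ => by unfold An; infer_instance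
instance (p q n : ℕ) : DecidableRel (Bn p q n).Adj := fun _ _ => by unfold Bn; infer_instance

theorem sz_pos {r d s : ℕ} (hs : 1 ≤ s) (i : Fin (r + 2)) : 0 < sz r d s i := by
  refine Fin.cases ?_ (fun i => ?_) i
  · simp [sz]
  · refine Fin.cases ?_ (fun i => ?_) i
    · simp [sz]
    · exact hs

theorem An_free {r q d s n : ℕ} (hs : 1 ≤ s) : (FF r q d s).Free (An (r + 1) q n) := by
  rintro ⟨f⟩
  let g' : Option (Fin q) → Fin (r + 2) → ((Σ i : Fin (r + 2), Fin (sz r d s i)) ⊕ (Fin q × Fin (r + 2))) :=
    fun o i => match o with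
      | none => Sum.inl ⟨i, ⟨0, sz_pos hs i⟩⟩
      | some j => Sum.inr (j, i)
  have hg'adj : ∀ o i j, i ≠ j → (FF r q d s).Adj (g' o i) (g' o j) := by
    intro o i j hij
    cases o with
    | none => exact hij
    | some a => exact ⟨rfl, hij⟩
  have hg'inj : ∀ o o' i i', g' o i = g' o' i' → o = o' := by
    intro o o' i i' h
    cases o with
    | none =>
      cases o' with
      | none => rfl
      | some a => simp [g'] at h
    | some a =>
      cases o' with
      | none => simp [g'] at h
      | some b =>
        simp only [g', Sum.inr.injEq, Prod.mk.injEq] at h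
        rw [h.1]
  have hsmall : ∀ o, ∃ i, (f (g' o i)).val < q := by
    intro o
    by_contra hcon
    push Not at hcon
    let m : Fin (r + 2) → Fin (r + 1) := fun i => ⟨(f (g' o i)).val % (r + 1), Nat.mod_lt _ (by omega)⟩
    have hm : Function.Injective m := by
      intro i j hij
      by_contra hne
      have h1 : (An (r + 1) q n).Adj (f (g' o i)) (f (g' o j)) := f.toHom.map_adj (hg'adj o i j hne)
      have h2 : (f (g' o i)).val % (r + 1) = (f (g' o j)).val % (r + 1) := by
        have := congrArg Fin.val hij
        exact this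
      rcases h1.2 with h | h | h
      · have := hcon i; omega
      · have := hcon j; omega
      · exact h h2
    have := Fintype.card_le_of_injective m hm
    simp at this
  choose i0 hi0 using hsmall
  let m : Option (Fin q) → Fin q := fun o => ⟨(f (g' o (i0 o))).val, hi0 o⟩
  have hm : Function.Injective m := by
    intro o o' h
    have h1 : (f (g' o (i0 o))).val = (f (g' o' (i0 o'))).val := by
      have := congrArg (fun x : Fin q => x.val) h
      exact this
    exact hg'inj _ _ _ _ (f.injective (Fin.ext h1))
  have := Fintype.card_le_of_injective m hm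
  simp at this

theorem card_class {p q n : ℕ} (hqn : q ≤ n) (a : ℕ) :
    p * #({w | q ≤ w.val ∧ w.val % p = a % p} : Finset (Fin n)) + q ≤ n + p := by
  have h1 : #({w | q ≤ w.val ∧ w.val % p = a % p} : Finset (Fin n)) ≤ (n - q) / p + 1 := by
    rw [← card_range ((n - q) / p + 1)]
    apply card_le_card_of_injOn (fun w => (w.val - q) / p)
    · intro w hw
      rw [mem_coe, mem_range]
      have : (w.val - q) / p ≤ (n - q) / p := Nat.div_le_div_right (by omega)
      show (w.val - q) / p < _
      omega
    · intro w hw w' hw' h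
      simp only [coe_filter, mem_univ, true_and, Set.mem_ofPred_eq] at hw hw'
      obtain ⟨b, hb⟩ := Nat.exists_eq_add_of_le hw.1
      obtain ⟨b', hb'⟩ := Nat.exists_eq_add_of_le hw'.1
      have h2 : q + b ≡ q + b' [MOD p] := by
        rw [← hb, ← hb']; exact hw.2.trans hw'.2.symm
      have h3 : b % p = b' % p := Nat.ModEq.add_left_cancel' q h2
      have h4 : b / p = b' / p := by
        have : (w.val - q) / p = (w'.val - q) / p := h
        rw [hb, hb'] at this
        simpa using this
      have h5 : b = b' := by
        rw [← Nat.div_add_mod b p, ← Nat.div_add_mod b' p, h3, h4]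
      apply Fin.ext
      omega
  have h2 : p * ((n - q) / p) ≤ n - q := Nat.mul_div_le _ _
  have h3 := Nat.mul_le_mul_left p h1
  rw [mul_add] at h3
  omega

theorem An_deg_small {p q n : ℕ} (v : Fin n) (hv : v.val < q) :
    (An p q n).degree v = n - 1 := by
  rw [← card_neighborFinset_eq_degree]
  have : (An p q n).neighborFinset v = univ.erase v := by
    ext w
    rw [mem_neighborFinset, mem_erase]
    constructor
    · intro h; exact ⟨h.1.symm, mem_univ _⟩
    · intro h; exact ⟨h.1.symm, Or.inl hv⟩
  rw [this, card_erase_of_mem (mem_univ _), card_univ, Fintype.card_fin]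

theorem An_deg_big {r q n : ℕ} (hqn : q ≤ n) (v : Fin n) :
    r * n + q ≤ (r + 1) * (An (r + 1) q n).degree v + (r + 1) := by
  have h1 := card_class (p := r + 1) (q := q) (n := n) hqn v.val
  have h2 : n ≤ (An (r + 1) q n).degree v + #({w | q ≤ w.val ∧ w.val % (r + 1) = v.val % (r + 1)} : Finset (Fin n)) ∨ v.val < q := by
    by_cases hv : v.val < q
    · exact Or.inr hv
    · left
      have : (univ : Finset (Fin n)) ⊆ (An (r + 1) q n).neighborFinset v ∪
          ({w | q ≤ w.val ∧ w.val % (r + 1) = v.val % (r + 1)} : Finset (Fin n)) := by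
        intro w _
        rw [mem_union, mem_neighborFinset, mem_filter]
        by_cases hw : q ≤ w.val ∧ w.val % (r + 1) = v.val % (r + 1)
        · exact Or.inr ⟨mem_univ _, hw⟩
        · left
          refine ⟨?_, ?_⟩
          · rintro rfl
            exact hw ⟨by omega, rfl⟩
          · by_cases h : w.val < q
            · exact Or.inr (Or.inl h)
            · exact Or.inr (Or.inr (fun h' => hw ⟨by omega, h'.symm⟩))
      calc n = #(univ : Finset (Fin n)) := by simp
        _ ≤ _ := card_le_card this
        _ ≤ _ := card_union_le _ _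
        _ = _ := by rw [card_neighborFinset_eq_degree]
  rcases h2 with h2 | h2
  · have h3 := Nat.mul_le_mul_left (r + 1) h2
    nlinarith
  · rw [An_deg_small v h2]
    obtain ⟨n', rfl⟩ : ∃ n', n = n' + 1 := ⟨n - 1, by have := v.2; omega⟩
    simp only [Nat.add_sub_cancel]
    nlinarith

/-- sum of squared degrees of `An` -/
theorem An_sq {r q n : ℕ} (hqn : q ≤ n) (hn : r + 1 ≤ r * n + q) :
    (q : ℤ) * ((r + 1) ^ 2 * (n - 1) ^ 2) + (n - q) * (r * n + q - (r + 1)) ^ 2
      ≤ (r + 1) ^ 2 * ∑ v, ((An (r + 1) q n).degree v : ℤ) ^ 2 := by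
  have h1 : ∀ v : Fin n, (if v.val < q then ((r + 1) ^ 2 * (n - 1) ^ 2 : ℤ)
      else (r * n + q - (r + 1)) ^ 2) ≤ (r + 1) ^ 2 * ((An (r + 1) q n).degree v : ℤ) ^ 2 := by
    intro v
    split_ifs with hv
    · rw [An_deg_small v hv]
      have : ((n - 1 : ℕ) : ℤ) = n - 1 := by
        have := v.2
        rw [Nat.cast_sub (by omega)]; simp
      rw [this]
    · have h2 := An_deg_big hqn v (r := r)
      have h3 : (r * n + q : ℤ) ≤ (r + 1) * (An (r + 1) q n).degree v + (r + 1) := by
        exact_mod_cast h2
      have h4 : (0 : ℤ) ≤ r * n + q - (r + 1) := by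
        have : (r + 1 : ℤ) ≤ r * n + q := by exact_mod_cast hn
        linarith
      rw [← mul_pow]
      apply pow_le_pow_left₀ h4
      linarith
  have h2 := Finset.sum_le_sum (s := (univ : Finset (Fin n))) fun v _ => h1 v
  rw [← mul_sum, sum_ite, sum_const, sum_const] at h2
  have h3 : #({v | v.val < q} : Finset (Fin n)) = q := by
    have : #({v | v.val < q} : Finset (Fin n)) = min n q := Fin.card_filter_val_lt
    rw [this]; omega
  have h4 : #({v | ¬ v.val < q} : Finset (Fin n)) = n - q := by
    have := Finset.card_filter_add_card_filter_not (s := (univ : Finset (Fin n))) (fun v => v.val < q)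
    rw [h3, card_univ, Fintype.card_fin] at this
    omega
  rw [h3, h4, nsmul_eq_mul, nsmul_eq_mul, Nat.cast_sub hqn] at h2
  exact h2

/-- in-class neighbours in `Bn` -/
theorem Bn_in_le {p k n : ℕ} (hp : 0 < p) (v : Fin n) :
    #({w | (Bn p k n).Adj v w ∧ w.val % p = v.val % p} : Finset (Fin n)) ≤ 2 * k := by
  have hc : #((range (2 * k + 1)).erase k) = 2 * k := by
    rw [card_erase_of_mem (by rw [mem_range]; omega), card_range]; rfl
  rw [← hc]
  have key : ∀ w : Fin n, w.val % p = v.val % p → v.val ≤ w.val + p * k →
      p * ((w.val + p * k - v.val) / p) = w.val + p * k - v.val := by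
    intro w h1 h2
    apply Nat.mul_div_cancel'
    apply (Nat.modEq_iff_dvd' h2).1
    have h3 : w.val ≡ v.val [MOD p] := h1
    calc v.val ≡ w.val [MOD p] := h3.symm
      _ ≡ w.val + p * k [MOD p] := by
          unfold Nat.ModEq; rw [Nat.add_mul_mod_self_left]
  apply card_le_card_of_injOn (fun w => (w.val + p * k - v.val) / p)
  · intro w hw
    simp only [coe_filter, mem_univ, true_and, Set.mem_ofPred_eq] at hw
    obtain ⟨⟨hne, hadj⟩, hcl⟩ := hw
    have h1 := hadj.resolve_left (fun h => h hcl.symm)
    have h2 := key w hcl h1.1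
    have goal : (w.val + p * k - v.val) / p ∈ (range (2 * k + 1)).erase k := by
      rw [mem_erase, mem_range]
      constructor
      · intro hjk
        rw [hjk] at h2
        apply hne
        apply Fin.ext
        omega
      · have : p * ((w.val + p * k - v.val) / p) ≤ p * (2 * k) := by
          rw [h2]
          have : p * (2 * k) = p * k + p * k := by ring
          omega
        have := Nat.le_of_mul_le_mul_left this hp
        omega
    exact goal
  · intro w hw w' hw' h
    simp only [coe_filter, mem_univ, true_and, Set.mem_ofPred_eq] at hw hw'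
    have h1 := hw.1.2.resolve_left (fun h => h hw.2.symm)
    have h1' := hw'.1.2.resolve_left (fun h => h hw'.2.symm)
    have h2 := key w hw.2 h1.1
    have h2' := key w' hw'.2 h1'.1
    have h3 : (w.val + p * k - v.val) / p = (w'.val + p * k - v.val) / p := h
    rw [h3, h2'] at h2
    apply Fin.ext
    omega

theorem Bn_in_ge {p k n : ℕ} (hp : 0 < p) (v : Fin n) (h1 : p * k ≤ v.val) (h2 : v.val + p * k < n) :
    2 * k ≤ #({w | (Bn p k n).Adj v w ∧ w.val % p = v.val % p} : Finset (Fin n)) := by
  have hc : #((range (2 * k + 1)).erase k) = 2 * k := by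
    rw [card_erase_of_mem (by rw [mem_range]; omega), card_range]; rfl
  rw [← hc]
  have hlt : ∀ j ∈ (range (2 * k + 1)).erase k, v.val + p * j - p * k < n := by
    intro j hj
    rw [mem_erase, mem_range] at hj
    have : p * j ≤ p * (2 * k) := Nat.mul_le_mul_left _ (by omega)
    have e : p * (2 * k) = p * k + p * k := by ring
    omega
  apply card_le_card_of_injOn (fun j => if h : v.val + p * j - p * k < n then
    (⟨v.val + p * j - p * k, h⟩ : Fin n) else v)
  · intro j hj
    have hj' := hj
    rw [mem_coe, mem_erase, mem_range] at hj'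
    have h3 := hlt j hj
    simp only [h3, dite_true, coe_filter, mem_univ, true_and, Set.mem_ofPred_eq]
    have h4 : p * j ≤ p * (2 * k) := Nat.mul_le_mul_left _ (by omega)
    have e : p * (2 * k) = p * k + p * k := by ring
    refine ⟨⟨?_, Or.inr ⟨?_, ?_⟩⟩, ?_⟩
    · intro h
      have h5 : v.val = v.val + p * j - p * k := congrArg Fin.val h
      have h6 : p * j = p * k := by omega
      exact hj'.1 (Nat.eq_of_mul_eq_mul_left hp h6)
    · show v.val ≤ v.val + p * j - p * k + p * k
      omega
    · show v.val + p * j - p * k ≤ v.val + p * k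
      omega
    · show (v.val + p * j - p * k) % p = v.val % p
      have h7 : (v.val + p * j - p * k) + p * k = v.val + p * j := by omega
      have h8 : ((v.val + p * j - p * k) + p * k) % p = (v.val + p * j) % p := by rw [h7]
      rwa [Nat.add_mul_mod_self_left, Nat.add_mul_mod_self_left] at h8
  · intro j hj j' hj' h
    have h3 := hlt j hj
    have h3' := hlt j' hj'
    simp only [h3, h3', dite_true, Fin.mk.injEq] at h
    have h6 : p * j = p * j' := by omega
    exact Nat.eq_of_mul_eq_mul_left hp h6

theorem Bn_free {r k s n : ℕ} (hs : (r + 1) * (2 * k) < s) :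
    (F0 r (2 * k) s).Free (Bn (r + 1) k n) := by
  rintro ⟨f⟩
  let π : Fin n → Fin (r + 1) := fun v => ⟨v.val % (r + 1), Nat.mod_lt _ (by omega)⟩
  have hπ : ∀ v w, π v = π w ↔ v.val % (r + 1) = w.val % (r + 1) := by
    intro v w
    simp [π]
  have hpig : ∀ j : Fin r, ∃ y : Fin (r + 1), 2 * k <
      #({x | π (f ⟨j.succ.succ, x⟩) = y} : Finset (Fin (sz r (2 * k) s j.succ.succ))) := by
    intro j
    apply Fintype.exists_lt_card_fiber_of_mul_lt_card
    rw [Fintype.card_fin, Fintype.card_fin]
    exact hs
  choose σ hσ using hpig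
  -- a vertex adjacent to the whole part `j` is not in class `σ j`
  have claimA : ∀ (u : Fin n) (j : Fin r), (∀ x, (Bn (r + 1) k n).Adj u (f ⟨j.succ.succ, x⟩)) →
      π u ≠ σ j := by
    intro u j hu hcl
    have h1 := Bn_in_le (p := r + 1) (k := k) (by omega) u
    have h2 : #({x | π (f ⟨j.succ.succ, x⟩) = σ j} : Finset (Fin (sz r (2 * k) s j.succ.succ))) ≤
        #({w | (Bn (r + 1) k n).Adj u w ∧ w.val % (r + 1) = u.val % (r + 1)} : Finset (Fin n)) := by
      apply card_le_card_of_injOn (fun x => f ⟨j.succ.succ, x⟩)
      · intro x hx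
        simp only [coe_filter, mem_univ, true_and, Set.mem_ofPred_eq] at hx ⊢
        exact ⟨hu x, (hπ _ _).1 (hx.trans hcl.symm)⟩
      · intro x _ y _ hxy
        have := f.injective hxy
        simpa using this
    have h3 := hσ j
    omega
  have hadj : ∀ i i' : Fin (r + 2), i ≠ i' → ∀ x y, (Bn (r + 1) k n).Adj (f ⟨i, x⟩) (f ⟨i', y⟩) := by
    intro i i' h x y
    exact f.toHom.map_adj h
  have hσinj : ∀ j j', j ≠ j' → σ j ≠ σ j' := by
    intro j j' hjj h
    obtain ⟨x, hx⟩ : ({x | π (f ⟨j'.succ.succ, x⟩) = σ j'} :
        Finset (Fin (sz r (2 * k) s j'.succ.succ))).Nonempty := by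
      rw [← card_pos]; have := hσ j'; omega
    rw [mem_filter] at hx
    apply claimA (f ⟨j'.succ.succ, x⟩) j
    · intro y
      apply hadj
      intro h'
      exact hjj (Fin.succ_injective _ (Fin.succ_injective _ h')).symm
    · rw [hx.2, h]
  let c : Fin n := f ⟨0, ⟨0, by simp [sz]⟩⟩
  have hleaf : ∀ y : Fin (sz r (2 * k) s 1), π (f ⟨1, y⟩) = π c := by
    intro y
    by_contra hne
    let m : Fin (r + 2) → Fin (r + 1) := Fin.cons (π c) (Fin.cons (π (f ⟨1, y⟩)) σ)
    have hm : Function.Injective m := by
      have hc : ∀ j, π c ≠ σ j := fun j => claimA c j (fun x => hadj _ _ (Fin.succ_ne_zero _).symm _ _)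
      have hl : ∀ j, π (f ⟨1, y⟩) ≠ σ j := fun j => claimA _ j (fun x => hadj _ _ (by
        intro h
        have : (0 : Fin (r + 1)).succ = (j.succ).succ := h
        exact (Fin.succ_ne_zero j).symm (Fin.succ_injective _ this)) _ _)
      intro i i'
      refine Fin.cases ?_ (fun i => ?_) i
      · refine Fin.cases ?_ (fun i' => ?_) i'
        · intro _; rfl
        · refine Fin.cases ?_ (fun i' => ?_) i'
          · intro h; exact absurd h.symm hne
          · intro h; exact absurd h (hc i')
      · refine Fin.cases ?_ (fun i => ?_) i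
        · refine Fin.cases ?_ (fun i' => ?_) i'
          · intro h; exact absurd h hne
          · refine Fin.cases ?_ (fun i' => ?_) i'
            · intro _; rfl
            · intro h; exact absurd h (hl i')
        · refine Fin.cases ?_ (fun i' => ?_) i'
          · intro h; exact absurd h.symm (hc i)
          · refine Fin.cases ?_ (fun i' => ?_) i'
            · intro h; exact absurd h.symm (hl i)
            · intro h
              by_contra hne'
              exact hσinj i i' (fun h' => hne' (by rw [h'])) h
    have := Fintype.card_le_of_injective m hm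
    simp at this
  have h1 := Bn_in_le (p := r + 1) (k := k) (by omega) c
  have h2 : #(univ : Finset (Fin (sz r (2 * k) s 1))) ≤
      #({w | (Bn (r + 1) k n).Adj c w ∧ w.val % (r + 1) = c.val % (r + 1)} : Finset (Fin n)) := by
    apply card_le_card_of_injOn (fun x => f ⟨1, x⟩)
    · intro x _
      simp only [coe_filter, mem_univ, true_and, Set.mem_ofPred_eq]
      exact ⟨hadj _ _ (by simp) _ _, (hπ _ _).1 (hleaf x)⟩
    · intro x _ y _ hxy
      have := f.injective hxy
      simpa using this
  have h3 : #(univ : Finset (Fin (sz r (2 * k) s 1))) = 2 * k + 1 := by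
    rw [card_univ, Fintype.card_fin]
    rfl
  omega

theorem Bn_FF_free {r q k s n : ℕ} (hs : (r + 1) * (2 * k) < s) :
    (FF r q (2 * k) s).Free (Bn (r + 1) k n) := by
  intro h
  exact Bn_free hs (IsContained.trans ⟨(Embedding.sumInl : F0 r (2 * k) s ↪g FF r q (2 * k) s).toCopy⟩ h)

theorem Bn_deg_sum {r k n : ℕ} (hn : 2 * ((r + 1) * k) ≤ n) :
    r * n ^ 2 + 2 * k * (r + 1) * n ≤ (r + 1) * (∑ v, (Bn (r + 1) k n).degree v) + (r + 1) * n
      + 4 * k ^ 2 * (r + 1) ^ 2 := by
  have h1 : ∀ v : Fin n, r * n + (if (r + 1) * k ≤ v.val ∧ v.val + (r + 1) * k < n then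
      (r + 1) * (2 * k) else 0) ≤ (r + 1) * (Bn (r + 1) k n).degree v + (r + 1) := by
    intro v
    have h2 : n + #({w | (Bn (r + 1) k n).Adj v w ∧ w.val % (r + 1) = v.val % (r + 1)} : Finset (Fin n))
        ≤ (Bn (r + 1) k n).degree v + #({w | 0 ≤ w.val ∧ w.val % (r + 1) = v.val % (r + 1)} : Finset (Fin n)) := by
      have e1 : #({w | 0 ≤ w.val ∧ w.val % (r + 1) = v.val % (r + 1)} : Finset (Fin n)) +
          #({w | ¬ (0 ≤ w.val ∧ w.val % (r + 1) = v.val % (r + 1))} : Finset (Fin n)) = n := by
        rw [Finset.card_filter_add_card_filter_not, card_univ, Fintype.card_fin]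
      have e2 : #({w | ¬ (0 ≤ w.val ∧ w.val % (r + 1) = v.val % (r + 1))} : Finset (Fin n)) +
          #({w | (Bn (r + 1) k n).Adj v w ∧ w.val % (r + 1) = v.val % (r + 1)} : Finset (Fin n))
          ≤ (Bn (r + 1) k n).degree v := by
        rw [← card_neighborFinset_eq_degree, ← card_union_of_disjoint]
        · apply card_le_card
          intro w hw
          rw [mem_neighborFinset]
          simp only [mem_union, mem_filter, mem_univ, true_and] at hw
          rcases hw with hw | hw
          · refine ⟨?_, Or.inl ?_⟩
            · rintro rfl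
              exact hw ⟨Nat.zero_le _, rfl⟩
            · intro h
              exact hw ⟨Nat.zero_le _, h.symm⟩
          · exact hw.1
        · rw [Finset.disjoint_left]
          intro w hw hw'
          simp only [mem_filter, mem_univ, true_and] at hw hw'
          exact hw ⟨Nat.zero_le _, hw'.2⟩
      omega
    have h3 := card_class (p := r + 1) (q := 0) (n := n) (Nat.zero_le _) v.val
    have h4 : (if (r + 1) * k ≤ v.val ∧ v.val + (r + 1) * k < n then (r + 1) * (2 * k) else 0)
        ≤ (r + 1) * #({w | (Bn (r + 1) k n).Adj v w ∧ w.val % (r + 1) = v.val % (r + 1)} : Finset (Fin n)) := by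
      split_ifs with h
      · exact Nat.mul_le_mul_left _ (Bn_in_ge (by omega) v h.1 h.2)
      · exact Nat.zero_le _
    have h5 := Nat.mul_le_mul_left (r + 1) h2
    nlinarith
  have h2 := Finset.sum_le_sum (s := (univ : Finset (Fin n))) fun v _ => h1 v
  rw [sum_add_distrib, sum_add_distrib, ← mul_sum, sum_const, sum_const, card_univ,
    Fintype.card_fin, smul_eq_mul, smul_eq_mul, ← sum_filter, sum_const, smul_eq_mul] at h2
  have h3 : n ≤ #({v | (r + 1) * k ≤ v.val ∧ v.val + (r + 1) * k < n} : Finset (Fin n))
      + 2 * ((r + 1) * k) := by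
    obtain ⟨m, hm⟩ := Nat.exists_eq_add_of_le hn
    have : #(univ : Finset (Fin m)) ≤
        #({v | (r + 1) * k ≤ v.val ∧ v.val + (r + 1) * k < n} : Finset (Fin n)) := by
      apply card_le_card_of_injOn (fun i : Fin m => (⟨i.val + (r + 1) * k, by omega⟩ : Fin n))
      · intro i _
        simp only [coe_filter, mem_univ, true_and, Set.mem_ofPred_eq]
        constructor
        · omega
        · have := i.2; omega
      · intro i _ j _ hij
        have := congrArg Fin.val hij
        apply Fin.ext
        simpa using this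
    rw [card_univ, Fintype.card_fin] at this
    omega
  have h4 : ∑ v, (r + 1) * (Bn (r + 1) k n).degree v = (r + 1) * ∑ v, (Bn (r + 1) k n).degree v := by
    rw [mul_sum]
  rw [h4] at h2
  have h5 := Nat.mul_le_mul_right ((r + 1) * (2 * k)) h3
  nlinarith

end H422CE
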