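import Mathlib

/-! Labelled and unlabelled copies. -/

open SimpleGraph Finset

namespace H422CE

variable {V W : Type*}

/-- labelled copies with a prescribed image correspond to isomorphisms onto the image -/
theorem card_fiber [Fintype V] [Fintype W] (G : SimpleGraph V) (H : SimpleGraph W)
    (S : G.Subgraph) (hS : Nonempty (H ≃g S.coe)) :
    Nat.card {f : Copy H G // f.toSubgraph = S} = Nat.card (H ≃g H) := by
  classical
  obtain ⟨e₀⟩ := hS
  have key : ∀ e : H ≃g S.coe,
      (⟨S.hom.comp e.toHom, Subgraph.hom_injective.comp e.injective⟩ : Copy H G).toSubgraph = S := by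
    intro e
    simp [Copy.toSubgraph, Subgraph.map_comp]
  let tr : (H ≃g H) → (H ≃g S.coe) := fun a => a.trans e₀
  let Φ : (H ≃g H) → {f : Copy H G // f.toSubgraph = S} := fun a =>
    ⟨⟨S.hom.comp (tr a).toHom, Subgraph.hom_injective.comp (tr a).injective⟩,
      key (tr a)⟩
  have hinj : Function.Injective Φ := by
    intro a b hab
    have h1 : ∀ x, S.hom (e₀ (a x)) = S.hom (e₀ (b x)) := by
      intro x
      have := congrArg (fun f : {f : Copy H G // f.toSubgraph = S} => f.1 x) hab
      exact this
    ext x
    exact e₀.injective (Subgraph.hom_injective (h1 x))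
  have hsurj : Function.Surjective Φ := by
    rintro ⟨f, rfl⟩
    refine ⟨f.isoToSubgraph.trans e₀.symm, ?_⟩
    apply Subtype.ext
    apply Copy.ext
    intro x
    change (f.toSubgraph).hom (e₀ (e₀.symm (f.isoToSubgraph x))) = f x
    rw [RelIso.apply_symm_apply]
    rfl
  exact (Nat.card_congr (Equiv.ofBijective Φ ⟨hinj, hsurj⟩)).symm

theorem card_copy_eq [Fintype V] [Fintype W] (G : SimpleGraph V) (H : SimpleGraph W) :
    Nat.card (Copy H G) = Nat.card (H ≃g H) * G.copyCount H := by
  classical
  have h1 : Nat.card (Copy H G) = ∑ S : G.Subgraph, Nat.card {f : Copy H G // f.toSubgraph = S} := by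
    rw [← Nat.card_sigma]
    exact Nat.card_congr (Equiv.sigmaFiberEquiv (fun f : Copy H G => f.toSubgraph)).symm
  rw [h1]
  have h2 : ∀ S : G.Subgraph, Nat.card {f : Copy H G // f.toSubgraph = S}
      = if Nonempty (H ≃g S.coe) then Nat.card (H ≃g H) else 0 := by
    intro S
    split_ifs with h
    · exact card_fiber G H S h
    · rw [Nat.card_eq_zero]
      left
      constructor
      rintro ⟨f, hf⟩
      exact h (hf ▸ ⟨f.isoToSubgraph⟩)
  rw [Finset.sum_congr rfl (fun S _ => h2 S), ← Finset.sum_filter, Finset.sum_const, smul_eq_mul,
    mul_comm]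
  congr 1

theorem card_copy_mono [Fintype V] {V' : Type*} [Fintype V'] [Fintype W] (G : SimpleGraph V)
    (G' : SimpleGraph V') (H : SimpleGraph W)
    (h : G'.copyCount H ≤ G.copyCount H) : Nat.card (Copy H G') ≤ Nat.card (Copy H G) := by
  rw [card_copy_eq, card_copy_eq]
  exact Nat.mul_le_mul_left _ h

/-- labelled copies of an edge -/
theorem card_copy_K2 [Fintype V] [DecidableEq V] (G : SimpleGraph V) [DecidableRel G.Adj] :
    Nat.card (Copy (⊤ : SimpleGraph (Fin 2)) G) = ∑ v, G.degree v := by
  classical
  let e : Copy (⊤ : SimpleGraph (Fin 2)) G ≃ Σ v : V, {w // w ∈ G.neighborFinset v} :=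
    { toFun := fun f => ⟨f 0, ⟨f 1, by
        rw [mem_neighborFinset]; exact f.toHom.map_adj (by simp)⟩⟩
      invFun := fun x => ⟨⟨![x.1, x.2.1], by
        intro a b hab
        have hx := x.2.2
        rw [mem_neighborFinset] at hx
        fin_cases a <;> fin_cases b
        · exact absurd rfl hab
        · exact hx
        · exact hx.symm
        · exact absurd rfl hab⟩, by
        intro a b hab
        have hx := x.2.2
        rw [mem_neighborFinset] at hx
        fin_cases a <;> fin_cases b
        · rfl
        · exact absurd hab hx.ne
        · exact absurd hab hx.ne'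
        · rfl⟩
      left_inv := by
        intro f
        apply Copy.ext
        intro a
        fin_cases a <;> rfl
      right_inv := by
        rintro ⟨v, w, hw⟩
        rfl }
  rw [Nat.card_congr e, Nat.card_sigma]
  apply Finset.sum_congr rfl
  intro v _
  rw [Nat.card_eq_fintype_card, Fintype.card_coe, card_neighborFinset_eq_degree]

/-- labelled copies of the path with two edges -/
theorem card_copy_P3 [Fintype V] [DecidableEq V] (G : SimpleGraph V) [DecidableRel G.Adj] :
    Nat.card (Copy (pathGraph 3) G) = ∑ v, G.degree v * (G.degree v - 1) := by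
  classical
  let e : Copy (pathGraph 3) G ≃
      Σ v : V, {ab : V × V // ab ∈ (G.neighborFinset v).offDiag} :=
    { toFun := fun f => ⟨f 1, ⟨(f 0, f 2), by
        rw [mem_offDiag, mem_neighborFinset, mem_neighborFinset]
        refine ⟨f.toHom.map_adj (by simp [pathGraph_adj]), f.toHom.map_adj (by simp [pathGraph_adj]), ?_⟩
        intro h
        have := f.injective h
        exact absurd this (by decide)⟩⟩
      invFun := fun x => ⟨⟨![x.2.1.1, x.1, x.2.1.2], by
        intro a b hab
        have hx := x.2.2
        rw [mem_offDiag, mem_neighborFinset, mem_neighborFinset] at hx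
        rw [pathGraph_adj] at hab
        fin_cases a <;> fin_cases b
        · simp at hab
        · exact hx.1.symm
        · simp at hab
        · exact hx.1
        · simp at hab
        · exact hx.2.1
        · simp at hab
        · exact hx.2.1.symm
        · simp at hab⟩, by
        intro a b hab
        have hx := x.2.2
        rw [mem_offDiag, mem_neighborFinset, mem_neighborFinset] at hx
        fin_cases a <;> fin_cases b
        · rfl
        · exact absurd hab hx.1.ne'
        · exact absurd hab hx.2.2
        · exact absurd hab hx.1.ne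
        · rfl
        · exact absurd hab hx.2.1.ne
        · exact absurd hab.symm hx.2.2
        · exact absurd hab hx.2.1.ne'
        · rfl⟩
      left_inv := by
        intro f
        apply Copy.ext
        intro a
        fin_cases a <;> rfl
      right_inv := by
        rintro ⟨v, ⟨a, b⟩, hw⟩
        rfl }
  rw [Nat.card_congr e, Nat.card_sigma]
  apply Finset.sum_congr rfl
  intro v _
  rw [Nat.card_eq_fintype_card, Fintype.card_coe, offDiag_card, card_neighborFinset_eq_degree,
    Nat.mul_sub_one]

end H422CE
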