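import Pool.Agent.H422R3.CECount
import Pool.Agent.H422R3.CECaseI
import Pool.Agent.H422R3.CECaseII2
import Pool.Agent.H422R3.CEConstr

open SimpleGraph Finset

namespace H422CE

/-- `Ex n H F` is the set of `n`-vertex `F`-free graphs with the largest number of (not
necessarily induced, unlabelled) copies of `H`. -/
def Ex {α β : Type} (n : ℕ) (H : SimpleGraph α) (F : SimpleGraph β) :
    Set (SimpleGraph (Fin n)) :=
  {G | F.Free G ∧ ∀ G' : SimpleGraph (Fin n), F.Free G' → G'.copyCount H ≤ G.copyCount H}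

variable {β : Type}

theorem Ex_K2_sum {n : ℕ} {F : SimpleGraph β} {G : SimpleGraph (Fin n)} [DecidableRel G.Adj]
    (hG : G ∈ Ex n (⊤ : SimpleGraph (Fin 2)) F) (G' : SimpleGraph (Fin n)) [DecidableRel G'.Adj]
    (hG' : F.Free G') : ∑ v, G'.degree v ≤ ∑ v, G.degree v := by
  have := card_copy_mono G G' _ (hG.2 G' hG')
  rwa [card_copy_K2, card_copy_K2] at this

theorem Ex_P3_sum {n : ℕ} {F : SimpleGraph β} {G : SimpleGraph (Fin n)} [DecidableRel G.Adj]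
    (hG : G ∈ Ex n (pathGraph 3) F) (G' : SimpleGraph (Fin n)) [DecidableRel G'.Adj]
    (hG' : F.Free G') : ∑ v, G'.degree v * (G'.degree v - 1) ≤
      ∑ v, G.degree v * (G.degree v - 1) := by
  have := card_copy_mono G G' _ (hG.2 G' hG')
  rwa [card_copy_P3, card_copy_P3] at this

theorem both_sq {n : ℕ} {F : SimpleGraph β} {G : SimpleGraph (Fin n)} [DecidableRel G.Adj]
    (hG : G ∈ Ex n (pathGraph 3) F) (hG2 : G ∈ Ex n (⊤ : SimpleGraph (Fin 2)) F)
    (G' : SimpleGraph (Fin n)) [DecidableRel G'.Adj] (hG' : F.Free G') :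
    ∑ v, (G'.degree v) ^ 2 ≤ ∑ v, (G.degree v) ^ 2 := by
  have h1 := Ex_K2_sum hG2 G' hG'
  have h2 := Ex_P3_sum hG G' hG'
  have key : ∀ a : ℕ, a * (a - 1) + a = a ^ 2 := by
    intro a
    cases a with
    | zero => rfl
    | succ a => simp; ring
  calc ∑ v, (G'.degree v) ^ 2 = ∑ v, (G'.degree v * (G'.degree v - 1)) + ∑ v, G'.degree v := by
        rw [← sum_add_distrib]; exact Finset.sum_congr rfl fun v _ => (key _).symm
    _ ≤ ∑ v, (G.degree v * (G.degree v - 1)) + ∑ v, G.degree v := Nat.add_le_add h2 h1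
    _ = _ := by rw [← sum_add_distrib]; exact Finset.sum_congr rfl fun v _ => key _

theorem Ex_extremal {n : ℕ} {F : SimpleGraph β} {G : SimpleGraph (Fin n)} [DecidableRel G.Adj]
    (hG : G ∈ Ex n (⊤ : SimpleGraph (Fin 2)) F) :
    #G.edgeFinset = extremalNumber n F := by
  have h1 : G.IsExtremal F.Free := by
    refine ⟨hG.1, ?_⟩
    intro G' _ hG'
    have := Ex_K2_sum hG G' hG'
    rw [sum_degrees_eq_twice_card_edges, sum_degrees_eq_twice_card_edges] at this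
    omega
  have := card_edgeFinset_of_isExtremal_free h1
  rwa [Fintype.card_fin] at this

/-- every degree of an edge-extremal graph is at least the increment of the extremal number -/
theorem deg_ge_increment {n : ℕ} {F : SimpleGraph β} {G : SimpleGraph (Fin n)}
    [DecidableRel G.Adj] (hG : G ∈ Ex n (⊤ : SimpleGraph (Fin 2)) F) (v : Fin n) :
    extremalNumber n F ≤ extremalNumber (n - 1) F + G.degree v := by
  have h1 := card_edgeFinset_deleteIncidenceSet_le_extremalNumber hG.1 v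
  rw [card_edgeFinset_deleteIncidenceSet, Ex_extremal hG, Fintype.card_fin] at h1
  omega

theorem main (r : ℕ) (hr : 1 ≤ r) (n₀ : ℕ) :
    ∃ n ≥ n₀, Ex n (pathGraph 3) (FF r (12 * r * (r + 1)) (2 * (12 * r + 2))
        ((r + 1) * (2 * (12 * r + 2)) + 1)) ∩
      Ex n (⊤ : SimpleGraph (Fin 2)) (FF r (12 * r * (r + 1)) (2 * (12 * r + 2))
        ((r + 1) * (2 * (12 * r + 2)) + 1)) = ∅ := by
  classical
  obtain ⟨k, hk⟩ : ∃ k, k = 12 * r + 2 := ⟨_, rfl⟩
  obtain ⟨q, hq⟩ : ∃ q, q = 12 * r * (r + 1) := ⟨_, rfl⟩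
  obtain ⟨s, hs⟩ : ∃ s, s = (r + 1) * (2 * k) + 1 := ⟨_, rfl⟩
  rw [← hk, ← hq, ← hs]
  have hds : 2 * k + 1 ≤ s := by
    rw [hs]
    have := Nat.le_mul_of_pos_left (2 * k) (show 0 < r + 1 by omega)
    omega
  by_contra hcon
  push Not at hcon
  have hex : ∀ n ≥ n₀, ∃ G : SimpleGraph (Fin n), G ∈ Ex n (pathGraph 3) (FF r q (2 * k) s) ∧
      G ∈ Ex n (⊤ : SimpleGraph (Fin 2)) (FF r q (2 * k) s) := by
    intro n hn
    exact hcon n hn
  let E : ℕ → ℕ := fun n => extremalNumber n (FF r q (2 * k) s)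
  -- lower bound for E
  have hElow : ∀ n, 2 * ((r + 1) * k) ≤ n →
      r * n ^ 2 + 2 * k * (r + 1) * n ≤ (r + 1) * (2 * E n) + (r + 1) * n
        + 4 * k ^ 2 * (r + 1) ^ 2 := by
    intro n hn
    have h1 := Bn_deg_sum (r := r) (k := k) (n := n) hn
    rw [sum_degrees_eq_twice_card_edges] at h1
    have h2 : #(Bn (r + 1) k n).edgeFinset ≤ E n := by
      have := card_edgeFinset_le_extremalNumber
        (Bn_FF_free (r := r) (q := q) (k := k) (s := s) (n := n) (by omega))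
      rwa [Fintype.card_fin] at this
    have h3 := Nat.mul_le_mul_left (r + 1) (Nat.mul_le_mul_left 2 h2)
    omega
  -- infinitely many large increments
  have hincr : ∀ N, ∃ n ≥ N, r * n + (r + 1) * E (n - 1) ≤ (r + 1) * E n + (r + 1) := by
    intro N
    by_contra hc
    push Not at hc
    obtain ⟨N1, hN1⟩ : ∃ N1, N1 = N + 2 * ((r + 1) * k) := ⟨_, rfl⟩
    have hmono : ∀ m, (2 * (r + 1) * E (N1 + m) : ℤ) - r * (N1 + m) ^ 2 ≤
        2 * (r + 1) * E N1 - r * N1 ^ 2 := by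
      intro m
      induction m with
      | zero => simp
      | succ m ih =>
        have h1 := hc (N1 + (m + 1)) (by omega)
        have e1 : N1 + (m + 1) - 1 = N1 + m := by omega
        rw [e1] at h1
        have h2 : ((r + 1) * E (N1 + (m + 1)) + (r + 1) : ℤ)
            < r * (N1 + (m + 1)) + (r + 1) * E (N1 + m) := by exact_mod_cast h1
        push_cast
        nlinarith
    obtain ⟨C, hC⟩ : ∃ C : ℤ, C = 2 * (r + 1) * E N1 - r * N1 ^ 2 := ⟨_, rfl⟩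
    obtain ⟨m, hm⟩ : ∃ m : ℕ, C + 4 * k ^ 2 * (r + 1) ^ 2 < m := by
      obtain ⟨m, hm⟩ := exists_nat_gt (C + 4 * k ^ 2 * (r + 1) ^ 2)
      exact ⟨m, hm⟩
    have h3 := hmono m
    have h4 := hElow (N1 + m) (by omega)
    have h5 : (r * (N1 + m) ^ 2 + 2 * k * (r + 1) * (N1 + m) : ℤ) ≤
        (r + 1) * (2 * E (N1 + m)) + (r + 1) * (N1 + m) + 4 * k ^ 2 * (r + 1) ^ 2 := by
      exact_mod_cast h4
    have h6 : ((2 * k - 1) * (r + 1) * (N1 + m) : ℤ) ≤ C + 4 * k ^ 2 * (r + 1) ^ 2 := by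
      rw [hC]; nlinarith
    have h7 : (N1 + m : ℤ) ≤ (2 * k - 1) * (r + 1) * (N1 + m) := by
      have h8 : (1 : ℤ) ≤ (2 * k - 1) * (r + 1) := by
        have h9 : (1 : ℤ) ≤ 2 * k - 1 := by rw [hk]; push_cast; linarith
        have h10 : (1 : ℤ) ≤ r + 1 := by linarith
        nlinarith
      have h11 : (0 : ℤ) ≤ N1 + m := by positivity
      nlinarith
    have h12 : (0 : ℤ) ≤ N1 := by positivity
    linarith
  -- constants
  obtain ⟨c0, hc0⟩ : ∃ c0, c0 = Fintype.card (Σ i : Fin (r + 2), Fin (sz r (2 * k) s i)) := ⟨_, rfl⟩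
  obtain ⟨y0, hy0⟩ : ∃ y0, y0 = c0 + q * (r + 2) := ⟨_, rfl⟩
  obtain ⟨μ, hμ⟩ : ∃ μ, μ = y0 + (r + 1) := ⟨_, rfl⟩
  obtain ⟨R, hR⟩ : ∃ R, R = (r + 1) * s * μ + s + y0 := ⟨_, rfl⟩
  obtain ⟨C1, hC1⟩ : ∃ C1, C1 = r * y0 ^ 2 + 2 * y0 * ((r + 1) * (R + y0 + r)) := ⟨_, rfl⟩
  obtain ⟨C2, hC2⟩ : ∃ C2, C2 = ((r + 1) * (2 * k + r * (2 * k + 1) + 1)) ^ 2 := ⟨_, rfl⟩
  obtain ⟨N2, hN2⟩ := caseII_exists (r := r) (d := 2 * k) (s := s) hr hds
  obtain ⟨e1, he1⟩ : ∃ e1 : ℤ, e1 = -2 * q * (r + 1) ^ 2 + (q - (r + 1)) ^ 2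
    - 2 * q * r * (q - (r + 1)) := ⟨_, rfl⟩
  obtain ⟨e0, he0⟩ : ∃ e0 : ℤ, e0 = q * (r + 1) ^ 2 - q * (q - (r + 1)) ^ 2 := ⟨_, rfl⟩
  obtain ⟨n, hn, hinc⟩ := hincr (n₀ + N2 + (3 * r + 2) * ((r + 1) * (1 + y0)) + C1 + C2
    + 4 * k ^ 2 * (r + 1) ^ 2 + 2 * ((r + 1) * k) + q + (r + 1) + e1.natAbs + e0.natAbs + 1)
  obtain ⟨G, hG1, hG2⟩ := hex n (by omega)
  have hdeg : ∀ v, r * n ≤ (r + 1) * G.degree v + (r + 1) := by
    intro v
    have h1 := deg_ge_increment hG2 v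
    have h2 : (r + 1) * E n ≤ (r + 1) * (E (n - 1) + G.degree v) := Nat.mul_le_mul_left _ h1
    nlinarith
  by_cases hF0 : (F0 r (2 * k) s) ⊑ G
  · -- case I
    obtain ⟨f⟩ := hF0
    have h1 := caseI_core G (q := q) (n := n) (c0 := c0) (y0 := y0) (μ := μ) (R := R) hr hds
      (Fintype.card_fin n) hdeg hG2.1 f hc0 hy0 hμ hR (by omega)
    rw [← hC1, sum_degrees_eq_twice_card_edges, Ex_extremal hG2] at h1
    have h2 := hElow n (by omega)
    have h3 : (r + 1) * (2 * E n) ≤ r * n ^ 2 + 2 * q * n + C1 := h1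
    have h4 : 2 * k * (r + 1) * n = 2 * q * n + 4 * (r + 1) * n := by
      rw [hk, hq]; ring
    have h5 : 3 * ((r + 1) * n) ≤ C1 + 4 * k ^ 2 * (r + 1) ^ 2 := by nlinarith
    have h6 : n ≤ 3 * ((r + 1) * n) := by nlinarith
    omega
  · -- case II
    obtain ⟨c, hc⟩ := hN2 n (by omega) G hdeg hF0
    have h1 := caseII_sq G (Fintype.card_fin n) hdeg c hc
    rw [← hC2] at h1
    have h2 := both_sq hG1 hG2 (An (r + 1) q n) (An_free (by omega))
    have h3 := An_sq (r := r) (q := q) (n := n) (by omega) (by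
      have : 1 * n ≤ r * n := Nat.mul_le_mul_right _ hr
      omega)
    have h4 : ((r + 1) ^ 2 * ∑ v, ((An (r + 1) q n).degree v : ℤ) ^ 2 : ℤ) ≤
        r ^ 2 * n ^ 3 + 2 * r * (r + 1) * (2 * k) * n ^ 2 + C2 * n := by
      have h5 := (Nat.mul_le_mul_left ((r + 1) ^ 2) h2).trans h1
      exact_mod_cast h5
    have h5 := h3.trans h4
    have h6 : (q : ℤ) * ((r + 1) ^ 2 * (n - 1) ^ 2) + (n - q) * (r * n + q - (r + 1)) ^ 2
        = r ^ 2 * n ^ 3 + (q * (4 * r + 1) - 2 * r * (r + 1)) * n ^ 2 + e1 * n + e0 := by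
      rw [he1, he0]; ring
    rw [h6] at h5
    have h7 : ((q : ℤ) * (4 * r + 1) - 2 * r * (r + 1)) = 2 * r * (r + 1) * (2 * k)
        + 2 * r * (r + 1) := by
      rw [hq, hk]; push_cast; ring
    rw [h7] at h5
    have h8 : (2 * r * (r + 1) : ℤ) * n ^ 2 + e1 * n + e0 ≤ C2 * n := by nlinarith
    have hn1 : (1 : ℤ) ≤ n := by
      have : 1 ≤ n := by omega
      exact_mod_cast this
    have h9 : (|e1| + |e0| + C2 + 1 : ℤ) ≤ n := by
      have : e1.natAbs + e0.natAbs + C2 + 1 ≤ n := by omega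
      have h := (Nat.cast_le (α := ℤ)).2 this
      push_cast at h
      simpa using h
    have h10 : -|e1| ≤ e1 := neg_abs_le e1
    have h11 : -|e0| ≤ e0 := neg_abs_le e0
    have h12 : (1 : ℤ) ≤ 2 * r * (r + 1) := by
      have hr0 : 0 < r := hr
      have : 0 < 2 * r * (r + 1) := by positivity
      exact_mod_cast this
    have h13 : (0 : ℤ) ≤ |e0| := abs_nonneg _
    have h14 : (n : ℤ) ^ 2 ≤ 2 * r * (r + 1) * n ^ 2 := le_mul_of_one_le_left (sq_nonneg _) h12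
    have hn0 : (0 : ℤ) ≤ n := by linarith
    have h15 : -|e1| * n ≤ e1 * n := mul_le_mul_of_nonneg_right h10 hn0
    have h16 : |e0| ≤ |e0| * n := le_mul_of_one_le_right h13 hn1
    have h17 : (|e1| + |e0| + C2 + 1 : ℤ) * n ≤ n * n := mul_le_mul_of_nonneg_right h9 hn0
    linarith

end H422CE
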